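import Pool.Agent.Lib.MP_391708_nt.MR.Basic
import Pool.Agent.Lib.MP_391708_nt.XP.SpecO

/-!
# THEOREM X+ (MP_391708), module ONE: one scale

The variance bound and the main term for all the dyadic boxes give `cnt k b N ≥ c gB(b) N log B / (log N)^2` for all but
few `b ∈ (B, 2B]`.
-/

set_option autoImplicit false

namespace Pool.Agent.Lib.MP391708.XP

open Finset Filter Topology Pool.Agent.Lib.MP391708.MR
open Pool.Agent.Lib.MP391708.X (ChiG hk Dist Fam rgh VP Ix psi ix1 UOK lc On cnt PrK YOK)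
open Pool.Agent.Lib.MP391708.XL (VS PS)
open scoped ComplexConjugate

namespace ONEM

lemma ls_sub (p : Par) (ζ : Gi) (b : ℕ) (g g' : Gi → ℂ) :
    ls p ζ b (fun z => g z - g' z) = ls p ζ b g - ls p ζ b g' := by
  unfold ls
  simp only [Finset.sum_sub_distrib]

lemma sy_sub (p : Par) (y : Gi) (b : ℕ) (g g' : Gi → ℂ) :
    sy p y b (fun z => g z - g' z) = sy p y b g - sy p y b g' := by
  unfold sy
  simp only [ls_sub, Finset.sum_sub_distrib]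

/-- a Gaussian integer of squarefree norm is primitive -/
lemma prim_of_sq {y : Gi} (h : Squarefree (nm y)) : prim y := by
  unfold prim
  have h1 : (Int.gcd y.re y.im) * (Int.gcd y.re y.im) ∣ nm y := by
    have h2 : ((Int.gcd y.re y.im : ℕ) : ℤ) ∣ y.re := Int.gcd_dvd_left ..
    have h3 : ((Int.gcd y.re y.im : ℕ) : ℤ) ∣ y.im := Int.gcd_dvd_right ..
    have h4 : (((Int.gcd y.re y.im) * (Int.gcd y.re y.im) : ℕ) : ℤ) ∣ ((nm y : ℕ) : ℤ) := by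
      rw [nm_cast]
      push_cast
      have h5 := mul_dvd_mul h2 h2
      have h6 := mul_dvd_mul h3 h3
      rw [pow_two, pow_two]
      exact dvd_add h5 h6
    exact_mod_cast h4
  exact Nat.isUnit_iff.1 (h _ h1)

/-- the size conditions for a box -/
lemma sizes {δ cP cT cB N T P M B : ℝ} (ch cw : ℝ) (hb : Box δ cP cT cB N T P M B) (hN : 1 < N)
    (hl : 20 ≤ Real.log N) (hδ : δ ≤ 1 / 100) (hcP : 1 ≤ cP) (hcT : 1 ≤ cT)
    (hL : Real.log N ^ (4 * cP + 1) ≤ N ^ (1 / 20 : ℝ)) :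
    (Real.log N ^ (cP / 2) ≤ (par N T P M ch cw).P ∧
      2 * (par N T P M ch cw).P ≤ N ^ (1 / 10 : ℝ) ∧
      N ^ (1 / 10 : ℝ) ≤ (par N T P M ch cw).M4 ∧
      2 * (par N T P M ch cw).M4 ≤ N ^ (1 / 2 : ℝ) ∧
      N ^ (1 / 2 : ℝ) ≤ (par N T P M ch cw).M2 ∧
      2 * (par N T P M ch cw).M2 ≤ N ^ (9 / 10 : ℝ) ∧
      N ^ (9 / 10 : ℝ) * Real.log N ^ (cP / 2) ≤ (par N T P M ch cw).K) ∧
      2 ≤ (par N T P M ch cw).P ∧ 0 < (par N T P M ch cw).T ∧ 1 ≤ (par N T P M ch cw).K ∧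
      (par N T P M ch cw).P ^ 2 < (par N T P M ch cw).K := by
  obtain ⟨P1, P2, T1, T2, M1, M2, -, -⟩ := hb
  obtain ⟨ℓ, hℓ⟩ : ∃ ℓ, ℓ = Real.log N := ⟨_, rfl⟩
  rw [← hℓ] at P1 P2 T1 hl hL ⊢
  have hN0 : 0 < N := by linarith
  have hN1 : 1 ≤ N := hN.le
  have hl0 : 0 < ℓ := by linarith
  have hl1 : 1 ≤ ℓ := by linarith
  have e1 : ℓ ≤ ℓ ^ cP := by
    calc ℓ = ℓ ^ (1 : ℝ) := (Real.rpow_one _).symm
      _ ≤ ℓ ^ cP := Real.rpow_le_rpow_of_exponent_le hl1 hcP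
  have hP20 : 20 ≤ P := by linarith
  have hP0 : 0 < P := by linarith
  have e2 : ℓ ≤ ℓ ^ cT := by
    calc ℓ = ℓ ^ (1 : ℝ) := (Real.rpow_one _).symm
      _ ≤ ℓ ^ cT := Real.rpow_le_rpow_of_exponent_le hl1 hcT
  have hT16 : 16 * P ≤ T := by
    have h1 : P * 16 ≤ P * ℓ ^ cT := mul_le_mul_of_nonneg_left (by linarith) hP0.le
    linarith
  have hT0 : 0 < T := by linarith
  have hT : T ≤ N ^ (1 / 100 : ℝ) := T2.trans (Real.rpow_le_rpow_of_exponent_le hN1 hδ)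
  have hM0 : 0 < M := lt_of_lt_of_le (Real.rpow_pos_of_pos hN0 _) M1
  have e3 : ℓ ≤ N ^ (1 / 20 : ℝ) := by
    calc ℓ = ℓ ^ (1 : ℝ) := (Real.rpow_one _).symm
      _ ≤ ℓ ^ (4 * cP + 1) := Real.rpow_le_rpow_of_exponent_le hl1 (by linarith)
      _ ≤ _ := hL
  have e4 : ℓ ^ (cP / 2) ≤ N ^ (1 / 20 : ℝ) :=
    (Real.rpow_le_rpow_of_exponent_le hl1 (by linarith)).trans hL
  have e5 : P * ℓ ≤ N ^ (1 / 20 : ℝ) := by
    calc P * ℓ ≤ ℓ ^ (2 * cP) * ℓ ^ (1 : ℝ) := by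
          rw [Real.rpow_one]
          exact mul_le_mul_of_nonneg_right P2 hl0.le
      _ = ℓ ^ (2 * cP + 1) := (Real.rpow_add hl0 _ _).symm
      _ ≤ ℓ ^ (4 * cP + 1) := Real.rpow_le_rpow_of_exponent_le hl1 (by linarith)
      _ ≤ _ := hL
  have n1 : N ^ (1 / 20 : ℝ) ≤ N ^ (1 / 10 : ℝ) :=
    Real.rpow_le_rpow_of_exponent_le hN1 (by norm_num)
  have pos : ∀ a : ℝ, 0 < N ^ a := fun a => Real.rpow_pos_of_pos hN0 a
  have mul : ∀ a b c : ℝ, a + b = c → N ^ a * N ^ b = N ^ c := fun a b c h => by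
    rw [← Real.rpow_add hN0, h]
  have one : N ^ (1 : ℝ) = N := Real.rpow_one N
  refine ⟨⟨?_, ?_, ?_, ?_, ?_, ?_, ?_⟩, ?_, hT0, ?_, ?_⟩
  · change ℓ ^ (cP / 2) ≤ P
    exact (Real.rpow_le_rpow_of_exponent_le hl1 (by linarith)).trans P1
  · change 2 * P ≤ N ^ (1 / 10 : ℝ)
    nlinarith
  · change N ^ (1 / 10 : ℝ) ≤ M
    exact (Real.rpow_le_rpow_of_exponent_le hN1 (by norm_num)).trans M1
  · change 2 * M ≤ N ^ (1 / 2 : ℝ)
    have h1 : N ^ (1 / 20 : ℝ) * N ^ (45 / 100 : ℝ) = N ^ (1 / 2 : ℝ) := mul _ _ _ (by norm_num)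
    have h2 : 2 * M ≤ N ^ (1 / 20 : ℝ) * N ^ (45 / 100 : ℝ) :=
      mul_le_mul (by linarith) M2 hM0.le (pos _).le
    linarith
  · change N ^ (1 / 2 : ℝ) ≤ N * T / (16 * P * M)
    rw [le_div_iff₀ (by positivity)]
    have h1 : N ^ (1 / 2 : ℝ) * M ≤ N := by
      calc N ^ (1 / 2 : ℝ) * M ≤ N ^ (1 / 2 : ℝ) * N ^ (45 / 100 : ℝ) :=
            mul_le_mul_of_nonneg_left M2 (pos _).le
        _ = N ^ (95 / 100 : ℝ) := mul _ _ _ (by norm_num)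
        _ ≤ N ^ (1 : ℝ) := Real.rpow_le_rpow_of_exponent_le hN1 (by norm_num)
        _ = N := one
    calc N ^ (1 / 2 : ℝ) * (16 * P * M) = (N ^ (1 / 2 : ℝ) * M) * (16 * P) := by ring
      _ ≤ N * T := mul_le_mul h1 hT16 (by positivity) hN0.le
  · change 2 * (N * T / (16 * P * M)) ≤ N ^ (9 / 10 : ℝ)
    rw [← mul_div_assoc, div_le_iff₀ (by positivity)]
    have h1 : N * T ≤ N ^ (9 / 10 : ℝ) * M := by
      calc N * T ≤ N ^ (1 : ℝ) * N ^ (1 / 100 : ℝ) := by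
            rw [one]
            exact mul_le_mul_of_nonneg_left hT hN0.le
        _ = N ^ (101 / 100 : ℝ) := mul _ _ _ (by norm_num)
        _ ≤ N ^ (125 / 100 : ℝ) := Real.rpow_le_rpow_of_exponent_le hN1 (by norm_num)
        _ = N ^ (9 / 10 : ℝ) * N ^ (35 / 100 : ℝ) := (mul _ _ _ (by norm_num)).symm
        _ ≤ N ^ (9 / 10 : ℝ) * M := mul_le_mul_of_nonneg_left M1 (pos _).le
    calc 2 * (N * T) ≤ (16 * P) * (N ^ (9 / 10 : ℝ) * M) :=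
          mul_le_mul (by linarith) h1 (by positivity) (by positivity)
      _ = N ^ (9 / 10 : ℝ) * (16 * P * M) := by ring
  · change N ^ (9 / 10 : ℝ) * ℓ ^ (cP / 2) ≤ N / T
    rw [le_div_iff₀ hT0]
    calc N ^ (9 / 10 : ℝ) * ℓ ^ (cP / 2) * T
        ≤ N ^ (9 / 10 : ℝ) * N ^ (1 / 20 : ℝ) * N ^ (1 / 100 : ℝ) :=
          mul_le_mul (mul_le_mul_of_nonneg_left e4 (pos _).le) hT hT0.le
            (mul_pos (pos _) (pos _)).le
      _ = N ^ (96 / 100 : ℝ) := by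
          rw [mul (9 / 10) (1 / 20) (95 / 100) (by norm_num),
            mul (95 / 100) (1 / 100) (96 / 100) (by norm_num)]
      _ ≤ N ^ (1 : ℝ) := Real.rpow_le_rpow_of_exponent_le hN1 (by norm_num)
      _ = N := one
  · change 2 ≤ P
    linarith
  · change 1 ≤ N / T
    rw [le_div_iff₀ hT0, one_mul]
    calc T ≤ N ^ (1 / 100 : ℝ) := hT
      _ ≤ N ^ (1 : ℝ) := Real.rpow_le_rpow_of_exponent_le hN1 (by norm_num)
      _ = N := one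
  · change P ^ 2 < N / T
    rw [lt_div_iff₀ hT0]
    have h1 : P ≤ N ^ (1 / 20 : ℝ) := by nlinarith
    calc P ^ 2 * T ≤ (N ^ (1 / 20 : ℝ) * N ^ (1 / 20 : ℝ)) * N ^ (1 / 100 : ℝ) := by
          rw [pow_two]
          exact mul_le_mul (mul_le_mul h1 h1 hP0.le (pos _).le) hT hT0.le
            (mul_pos (pos _) (pos _)).le
      _ = N ^ (11 / 100 : ℝ) := by
          rw [mul (1 / 20) (1 / 20) (10 / 100) (by norm_num),
            mul (10 / 100) (1 / 100) (11 / 100) (by norm_num)]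
      _ < N ^ (1 : ℝ) := Real.rpow_lt_rpow_of_exponent_lt hN (by norm_num)
      _ = N := one

/-- few bad `b` -/
lemma few {ι : Type} {I : Finset ℕ} {S : Finset ι} {D : ι → ℕ → ℂ} {P : ℕ → Prop} [DecidablePred P]
    {N ℓ A B : ℝ} (hN : 0 < N) (hl : 20 ≤ ℓ) (hB : 0 ≤ B) (hS : (S.card : ℝ) ≤ ℓ ^ 4)
    (h1 : ∀ b ∈ I, P b → ∃ q ∈ S, N / ℓ ^ 5 ≤ ‖D q b‖)
    (h2 : ∀ q ∈ S, ∑ b ∈ I, ‖D q b‖ ^ 2 ≤ 20 * ℓ ^ (-(A + 16)) * B * N ^ 2) :
    ((I.filter P).card : ℝ) ≤ B * ℓ ^ (-A) := by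
  have hl0 : 0 < ℓ := by linarith
  have h3 : ((I.filter P).card : ℝ) * (N / ℓ ^ 5) ^ 2 ≤
      ∑ q ∈ S, ∑ b ∈ I, ‖D q b‖ ^ 2 := by
    calc ((I.filter P).card : ℝ) * (N / ℓ ^ 5) ^ 2 = ∑ b ∈ I.filter P, (N / ℓ ^ 5) ^ 2 := by
          rw [Finset.sum_const, nsmul_eq_mul]
      _ ≤ ∑ b ∈ I.filter P, ∑ q ∈ S, ‖D q b‖ ^ 2 := by
          refine Finset.sum_le_sum fun b hb => ?_
          rw [Finset.mem_filter] at hb
          obtain ⟨q, hq, hq2⟩ := h1 b hb.1 hb.2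
          calc (N / ℓ ^ 5) ^ 2 ≤ ‖D q b‖ ^ 2 := pow_le_pow_left₀ (by positivity) hq2 2
            _ ≤ ∑ q ∈ S, ‖D q b‖ ^ 2 :=
              Finset.single_le_sum (f := fun q => ‖D q b‖ ^ 2) (fun _ _ => by positivity) hq
      _ ≤ ∑ b ∈ I, ∑ q ∈ S, ‖D q b‖ ^ 2 :=
          Finset.sum_le_sum_of_subset_of_nonneg (Finset.filter_subset _ _) fun _ _ _ =>
            Finset.sum_nonneg fun _ _ => by positivity
      _ = ∑ q ∈ S, ∑ b ∈ I, ‖D q b‖ ^ 2 := Finset.sum_comm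
  have h4 : ℓ ^ (-(A + 16)) = ℓ ^ (-A) * (ℓ ^ 16)⁻¹ := by
    rw [neg_add, Real.rpow_add hl0, Real.rpow_neg hl0.le 16]
    norm_num
  have hlA : 0 < ℓ ^ (-A) := Real.rpow_pos_of_pos hl0 _
  have h5 : ((I.filter P).card : ℝ) * (N / ℓ ^ 5) ^ 2 ≤
      ℓ ^ 4 * (20 * (ℓ ^ (-A) * (ℓ ^ 16)⁻¹) * B * N ^ 2) := by
    refine h3.trans ?_
    calc ∑ q ∈ S, ∑ b ∈ I, ‖D q b‖ ^ 2 ≤ ∑ q ∈ S, 20 * ℓ ^ (-(A + 16)) * B * N ^ 2 :=
          Finset.sum_le_sum h2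
      _ = (S.card : ℝ) * (20 * (ℓ ^ (-A) * (ℓ ^ 16)⁻¹) * B * N ^ 2) := by
          rw [Finset.sum_const, nsmul_eq_mul, h4]
      _ ≤ ℓ ^ 4 * (20 * (ℓ ^ (-A) * (ℓ ^ 16)⁻¹) * B * N ^ 2) :=
          mul_le_mul_of_nonneg_right hS (by positivity)
  have h6 : ((I.filter P).card : ℝ) * ℓ ^ 2 ≤ 20 * (B * ℓ ^ (-A)) := by
    have e1 : ((I.filter P).card : ℝ) * ℓ ^ 2 * (N ^ 2 / ℓ ^ 12) =
        ((I.filter P).card : ℝ) * (N / ℓ ^ 5) ^ 2 := by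
      field_simp
    have e2 : 20 * (B * ℓ ^ (-A)) * (N ^ 2 / ℓ ^ 12) =
        ℓ ^ 4 * (20 * (ℓ ^ (-A) * (ℓ ^ 16)⁻¹) * B * N ^ 2) := by
      field_simp
    have h7 : 0 < N ^ 2 / ℓ ^ 12 := by positivity
    refine le_of_mul_le_mul_right ?_ h7
    rw [e1, e2]
    exact h5
  have h8 : (400 : ℝ) ≤ ℓ ^ 2 := by nlinarith
  have h9 : (0 : ℝ) ≤ ((I.filter P).card : ℝ) := Nat.cast_nonneg _
  have h10 : 0 ≤ B * ℓ ^ (-A) := by positivity
  nlinarith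

/-- the lower bound for `cnt` at one `b` -/
lemma lower {ι : Type} {c t : ℝ} {S : Finset ι} {Y : Finset Gi} {E M : ι → Gi → ℂ} {m : ι → ℝ}
    (hY : 1 ≤ ∑ y ∈ Y, 1 / (nm y : ℝ)) (h1 : (∑ q ∈ S, ∑ y ∈ Y, E q y).re ≤ c)
    (hm : ∀ q ∈ S, 0 ≤ m q) (ht : ∀ q ∈ S, t ≤ m q / 2)
    (h2 : ∀ q ∈ S, ∀ y ∈ Y, m q * (1 / (nm y : ℝ)) ≤ (M q y).re)
    (h3 : ∀ q ∈ S, ‖∑ y ∈ Y, (E q y - M q y)‖ < t) : ∑ q ∈ S, m q / 2 ≤ c := by
  refine le_trans ?_ h1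
  rw [Complex.re_sum]
  refine Finset.sum_le_sum fun q hq => ?_
  have h4 : m q ≤ ∑ y ∈ Y, (M q y).re := by
    calc m q ≤ m q * ∑ y ∈ Y, 1 / (nm y : ℝ) := le_mul_of_one_le_right (hm q hq) hY
      _ = ∑ y ∈ Y, m q * (1 / (nm y : ℝ)) := Finset.mul_sum _ _ _
      _ ≤ ∑ y ∈ Y, (M q y).re := Finset.sum_le_sum (h2 q hq)
  have h5 : (∑ y ∈ Y, (E q y - M q y)).re = (∑ y ∈ Y, E q y).re - ∑ y ∈ Y, (M q y).re := by
    rw [Finset.sum_sub_distrib, Complex.sub_re, Complex.re_sum Y (M q)]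
  have h6 := Complex.abs_re_le_norm (∑ y ∈ Y, (E q y - M q y))
  have h7 := h3 q hq
  have h8 := neg_abs_le (∑ y ∈ Y, (E q y - M q y)).re
  have h9 := ht q hq
  linarith

/-- the lower bound for the main term of a box -/
lemma mlow {c₀ cE cw cP V VP' N ℓ lP : ℝ} (hc₀ : 0 < c₀) (hcE : 0 < cE) (hcw : 1 ≤ cw) (hcP : 1 ≤ cP)
    (hN : 0 < N) (hl : 20 ≤ ℓ) (hV : cE / Real.log (ℓ ^ cw + 1) ^ 4 ≤ V) (hVP0 : 0 < VP')
    (hVP1 : VP' ≤ 1) (hlP0 : 0 < lP) (hlP : lP ≤ 2 * cP * Real.log ℓ)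
    (hbig : 4 * cP * (cw + 1) ^ 4 * Real.log ℓ ^ 5 ≤ c₀ * cE * ℓ ^ 2) :
    N / ℓ ^ 5 ≤ c₀ * (V / VP') * (N / (ℓ ^ 3 * lP)) / 2 := by
  have hl0 : 0 < ℓ := by linarith
  have hlog : 0 < Real.log ℓ := Real.log_pos (by linarith)
  have h1 : Real.log (ℓ ^ cw + 1) ≤ (cw + 1) * Real.log ℓ := by
    have h2 : ℓ ^ cw + 1 ≤ ℓ ^ (cw + 1) := by
      rw [Real.rpow_add hl0, Real.rpow_one]
      have h3 : 1 ≤ ℓ ^ cw := Real.one_le_rpow (by linarith) (by linarith)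
      nlinarith
    calc Real.log (ℓ ^ cw + 1) ≤ Real.log (ℓ ^ (cw + 1)) :=
          Real.log_le_log (by positivity) h2
      _ = (cw + 1) * Real.log ℓ := Real.log_rpow hl0 _
  have h4 : 0 < Real.log (ℓ ^ cw + 1) := Real.log_pos (by
    have := Real.rpow_pos_of_pos hl0 cw
    linarith)
  have h5 : cE / ((cw + 1) * Real.log ℓ) ^ 4 ≤ V := by
    refine le_trans ?_ hV
    exact div_le_div_of_nonneg_left hcE.le (by positivity) (pow_le_pow_left₀ h4.le h1 4)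
  have hV0 : 0 < V := lt_of_lt_of_le (by positivity) h5
  have h6 : V ≤ V / VP' := by
    rw [le_div_iff₀ hVP0]
    nlinarith
  have h7 : cE / ((cw + 1) * Real.log ℓ) ^ 4 ≤ V / VP' := h5.trans h6
  have h8 : N / (ℓ ^ 3 * (2 * cP * Real.log ℓ)) ≤ N / (ℓ ^ 3 * lP) :=
    div_le_div_of_nonneg_left hN.le (by positivity)
      (mul_le_mul_of_nonneg_left hlP (by positivity))
  have h9 : c₀ * (cE / ((cw + 1) * Real.log ℓ) ^ 4) * (N / (ℓ ^ 3 * (2 * cP * Real.log ℓ))) ≤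
      c₀ * (V / VP') * (N / (ℓ ^ 3 * lP)) :=
    mul_le_mul (mul_le_mul_of_nonneg_left h7 hc₀.le) h8 (by positivity) (by positivity)
  have h10 : N / ℓ ^ 5 ≤
      c₀ * (cE / ((cw + 1) * Real.log ℓ) ^ 4) * (N / (ℓ ^ 3 * (2 * cP * Real.log ℓ))) / 2 := by
    have e : c₀ * (cE / ((cw + 1) * Real.log ℓ) ^ 4) * (N / (ℓ ^ 3 * (2 * cP * Real.log ℓ))) / 2 =
        N / ℓ ^ 5 * ((c₀ * cE * ℓ ^ 2) / (4 * cP * (cw + 1) ^ 4 * Real.log ℓ ^ 5)) := by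
      field_simp
      ring
    rw [e]
    refine le_mul_of_one_le_right (by positivity) ?_
    rw [le_div_iff₀ (by positivity), one_mul]
    exact hbig
  linarith

end ONEM

open ONEM in
theorem specONE : SpecONEstmt := by
  classical
  intro hVAR hMT hYSET hCNB hCSX hBXC hSSB hLSM k hk A hA
  obtain ⟨cw, aU, aQ, aF, ch1, hcw1, hcw, haU, haQ, haF, hch1, δ1, hδ1, hV⟩ :=
    hVAR (A + 16) (by linarith)
  obtain ⟨c₀, hc₀, hM⟩ := hMT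
  obtain ⟨ch2, δ2, hδ2, hM⟩ := hM cw aU aQ aF hcw1 hcw haU haQ haF
  obtain ⟨ch, hch⟩ : ∃ ch, ch = max ch1 ch2 := ⟨_, rfl⟩
  obtain ⟨δ, hδ⟩ : ∃ δ, δ = min (min δ1 δ2) (1 / 100) := ⟨_, rfl⟩
  have hδ0 : 0 < δ := by rw [hδ]; exact lt_min (lt_min hδ1 hδ2) (by norm_num)
  have hδa : δ ≤ δ1 := by rw [hδ]; exact (min_le_left _ _).trans (min_le_left _ _)
  have hδb : δ ≤ δ2 := by rw [hδ]; exact (min_le_left _ _).trans (min_le_right _ _)
  have hδc : δ ≤ 1 / 100 := by rw [hδ]; exact min_le_right _ _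
  obtain ⟨cP1, hV⟩ := hV ch (by rw [hch]; exact le_max_left _ _) δ hδ0 hδa
  obtain ⟨cP2, hM⟩ := hM ch (by rw [hch]; exact le_max_right _ _) δ hδ0 hδb
  obtain ⟨A', hA', hYS⟩ := hYSET (k - 4) (max cw aQ) (lt_max_of_lt_right (by linarith))
  obtain ⟨cP, hcP⟩ : ∃ cP, cP = max (max cP1 cP2) (2 * A' + 2) := ⟨_, rfl⟩
  have hcP1 : cP1 ≤ cP := by rw [hcP]; exact (le_max_left _ _).trans (le_max_left _ _)
  have hcP2 : cP2 ≤ cP := by rw [hcP]; exact (le_max_right _ _).trans (le_max_left _ _)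
  have hcP3 : 2 * A' + 2 ≤ cP := by rw [hcP]; exact le_max_right _ _
  have hcP4 : 1 ≤ cP := by linarith
  obtain ⟨cT1, hV⟩ := hV cP hcP1
  obtain ⟨cT2, hM⟩ := hM cP hcP2
  obtain ⟨cT, hcT⟩ : ∃ cT, cT = max (max cT1 cT2) 1 := ⟨_, rfl⟩
  have hcT1 : cT1 ≤ cT := by rw [hcT]; exact (le_max_left _ _).trans (le_max_left _ _)
  have hcT2 : cT2 ≤ cT := by rw [hcT]; exact (le_max_right _ _).trans (le_max_left _ _)
  have hcT3 : 1 ≤ cT := by rw [hcT]; exact le_max_right _ _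
  obtain ⟨cB1, hV⟩ := hV cT hcT1
  obtain ⟨cB2, hM⟩ := hM cT hcT2
  obtain ⟨cB, hcB⟩ : ∃ cB, cB = max (max cB1 cB2) 0 := ⟨_, rfl⟩
  have hcB1 : cB1 ≤ cB := by rw [hcB]; exact (le_max_left _ _).trans (le_max_left _ _)
  have hcB2 : cB2 ≤ cB := by rw [hcB]; exact (le_max_right _ _).trans (le_max_left _ _)
  have hcB3 : 0 ≤ cB := by rw [hcB]; exact le_max_right _ _
  have hV := hV cB hcB1
  have hM := hM cB hcB2
  obtain ⟨c₁, cB', hc₁, hBX⟩ := hBXC δ cP cT cB hδ0 (by linarith) hcP4 (by linarith) hcB3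
  obtain ⟨cS, hcS, hSS⟩ := hSSB
  obtain ⟨-, -, -, -, -, cE, hcE, hEE⟩ := hLSM
  refine ⟨c₀ / 2 * cS * c₁, max cB' 0, by positivity, ?_⟩
  have hlog : ∀ᶠ N : ℝ in atTop, 20 ≤ Real.log N :=
    Real.tendsto_log_atTop.eventually (eventually_ge_atTop 20)
  have hL : ∀ᶠ N : ℝ in atTop, Real.log N ^ (4 * cP + 1) ≤ N ^ (1 / 20 : ℝ) := by
    have h := (isLittleO_log_rpow_rpow_atTop (4 * cP + 1) (by norm_num : (0 : ℝ) < 1 / 20)).bound
      (by norm_num : (0 : ℝ) < 1)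
    filter_upwards [h, eventually_ge_atTop 1] with N h1 h2
    rw [one_mul, Real.norm_of_nonneg (Real.rpow_nonneg (Real.log_nonneg h2) _),
      Real.norm_of_nonneg (Real.rpow_nonneg (by linarith) _)] at h1
    exact h1
  have hbig : ∀ᶠ ℓ : ℝ in atTop,
      4 * cP * (cw + 1) ^ 4 * Real.log ℓ ^ 5 ≤ c₀ * cE * ℓ ^ 2 := by
    have hD : 0 < 4 * cP * (cw + 1) ^ 4 := by positivity
    have h := (isLittleO_log_rpow_rpow_atTop 5 (by norm_num : (0 : ℝ) < 2)).bound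
      (show 0 < c₀ * cE / (4 * cP * (cw + 1) ^ 4) by positivity)
    filter_upwards [h, eventually_ge_atTop 1] with ℓ h1 h2
    rw [Real.norm_of_nonneg (Real.rpow_nonneg (Real.log_nonneg h2) _),
      Real.norm_of_nonneg (Real.rpow_nonneg (by linarith) _)] at h1
    have e1 : Real.log ℓ ^ (5 : ℝ) = Real.log ℓ ^ 5 := by
      exact_mod_cast Real.rpow_natCast (Real.log ℓ) 5
    have e2 : ℓ ^ (2 : ℝ) = ℓ ^ 2 := by
      exact_mod_cast Real.rpow_natCast ℓ 2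
    rw [e1, e2, div_mul_eq_mul_div, le_div_iff₀ hD] at h1
    linarith
  filter_upwards [hV, hM, Real.tendsto_log_atTop.eventually hYS, hBX, hlog, hL,
    Real.tendsto_log_atTop.eventually hbig, eventually_ge_atTop 8] with
    N hV hM hYS hBX hl hL hbig hN8 B hB hBN
  obtain ⟨Y, hY, hY1⟩ := hYS
  have hN0 : 0 < N := by linarith
  have hN1 : 1 < N := by linarith
  obtain ⟨ℓ, hℓ⟩ : ∃ ℓ, ℓ = Real.log N := ⟨_, rfl⟩
  rw [← hℓ] at hY hl hL hB hbig hBX ⊢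
  have hl0 : 0 < ℓ := by linarith
  have hl1 : 1 ≤ ℓ := by linarith
  have hB1 : ℓ ^ cB' ≤ B := (Real.rpow_le_rpow_of_exponent_le hl1 (le_max_left _ _)).trans hB
  have hB2 : 1 ≤ B := (Real.one_le_rpow hl1 (le_max_right _ _)).trans hB
  have hB0 : 0 < B := by linarith
  obtain ⟨S, hS, hScard, hSsum⟩ := hBX B hB1 hBN
  -- the sets U
  have hU : ∀ q : ℕ × ℕ × ℕ, ∃ U : Finset Ix, q ∈ S →
      UOK (ℓ ^ aQ) (ℓ ^ aF * (N / B)) (ℓ ^ aU) U ∧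
      Var (bp N ch cw q) B (fun z => Eta (bp N ch cw q) z - Kap (bp N ch cw q) U z) ≤
        ℓ ^ (-(A + 16)) * (B * (bp N ch cw q).K * (bp N ch cw q).T ^ 2) := by
    intro q
    by_cases hq : q ∈ S
    · obtain ⟨U, h1, h2⟩ := hV (2 ^ q.1) (2 ^ q.2.1) (2 ^ q.2.2) B (hS q hq)
      rw [← hℓ] at h1 h2
      exact ⟨U, fun _ => ⟨h1, h2⟩⟩
    · exact ⟨∅, fun h => absurd h hq⟩
  choose U hU using hU
  have hsz := fun q (hq : q ∈ S) => sizes ch cw (hS q hq) hN1 (by rw [← hℓ]; exact hl) hδc hcP4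
    hcT3 (by rw [← hℓ]; exact hL)
  rw [← hℓ] at hsz
  have hw3 : 3 ≤ ℓ ^ cw := by
    calc (3 : ℝ) ≤ ℓ ^ (1 : ℝ) := by rw [Real.rpow_one]; linarith
      _ ≤ ℓ ^ cw := Real.rpow_le_rpow_of_exponent_le hl1 hcw1
  have hwl : ℓ ≤ ℓ ^ cw := by
    calc ℓ = ℓ ^ (1 : ℝ) := (Real.rpow_one _).symm
      _ ≤ ℓ ^ cw := Real.rpow_le_rpow_of_exponent_le hl1 hcw1
  refine few (D := fun q b => ∑ y ∈ Y, sy (bp N ch cw q) y b
    (fun z => Eta (bp N ch cw q) z - Kap (bp N ch cw q) (U q) z)) (S := S) hN0 hl hB0.le hScard ?_ ?_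
  · intro b hb hbc
    by_contra hno
    push Not at hno
    rw [Finset.mem_Ioc] at hb
    have hbB : B < b := (Nat.floor_lt hB0.le).1 hb.1
    have hbB2 : (b : ℝ) ≤ 2 * B := (Nat.le_floor_iff (by linarith)).1 hb.2
    have hb0 : (0 : ℝ) < b := by linarith
    have hb1 : 1 ≤ b := by exact_mod_cast hb0
    have hbN : (b : ℝ) ≤ N := by
      have h1 : (b : ℝ) ^ 2 ≤ 8 * N := by nlinarith
      have h2 : 8 * N ≤ N ^ 2 := by nlinarith
      exact le_of_sq_le_sq (h1.trans h2) hN0.le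
    have hlb : Real.log b ≤ ℓ ^ cw := by
      refine le_trans ?_ hwl
      rw [hℓ]
      exact Real.log_le_log hb0 hbN
    obtain ⟨hVP0, hVP1, hgB⟩ := hSS b (ℓ ^ cw) hb1 hw3 hlb
    have hVE := (hEE (b : ℤ) (ℓ ^ cw) (by linarith)).1
    obtain ⟨ρ, hρ⟩ : ∃ ρ, ρ = VS b (PS (ℓ ^ cw)) / VP (ℓ ^ cw) := ⟨_, rfl⟩
    have hρ0 : 0 ≤ ρ := by
      rw [hρ]
      exact div_nonneg (hEE (b : ℤ) (ℓ ^ cw) (by linarith)).2.1.le hVP0.le
    have hc := hCNB k N ch cw (ℓ ^ (cP / 2)) (N ^ (1 / 10 : ℝ)) (N ^ (1 / 2 : ℝ))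
      (N ^ (9 / 10 : ℝ)) (ℓ ^ max cw aQ) Y b S hk (by linarith)
      (Real.one_le_rpow hl1 (by linarith))
      ⟨hY.sq, hY.na, fun y hy => (hY.le y hy).trans
        (Real.rpow_le_rpow_of_exponent_le hl1 (by linarith)), hY.rg⟩ hb1
      (fun q hq => (hsz q hq).1)
    have hlP : ∀ q ∈ S, 0 < Real.log ((2 : ℝ) ^ q.2.1) ∧
        Real.log ((2 : ℝ) ^ q.2.1) ≤ 2 * cP * Real.log ℓ := by
      intro q hq
      have h1 : (2 : ℝ) ≤ (2 : ℝ) ^ q.2.1 := (hsz q hq).2.1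
      have h2 : (2 : ℝ) ^ q.2.1 ≤ ℓ ^ (2 * cP) := by
        have := (hS q hq).P2
        rw [← hℓ] at this
        exact this
      refine ⟨Real.log_pos (by linarith), ?_⟩
      rw [← Real.log_rpow hl0]
      exact Real.log_le_log (by linarith) h2
    have hlow := lower (c := (cnt k b N : ℝ)) (t := N / ℓ ^ 5) (S := S) (Y := Y)
      (E := fun q y => sy (bp N ch cw q) y b (Eta (bp N ch cw q)))
      (M := fun q y => sy (bp N ch cw q) y b (Kap (bp N ch cw q) (U q)))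
      (m := fun q => c₀ * ρ * (N / (ℓ ^ 3 * Real.log ((2 : ℝ) ^ q.2.1)))) hY1 hc ?_ ?_ ?_ ?_
    · have e1 : ∑ q ∈ S, c₀ * ρ * (N / (ℓ ^ 3 * Real.log ((2 : ℝ) ^ q.2.1))) / 2 =
          c₀ / 2 * ρ * (N / ℓ ^ 3) * ∑ q ∈ S, 1 / Real.log ((2 : ℝ) ^ q.2.1) := by
        rw [Finset.mul_sum]
        refine Finset.sum_congr rfl fun q hq => ?_
        have h1 := (hlP q hq).1
        field_simp
      rw [e1] at hlow
      have hlB : 0 ≤ Real.log B := Real.log_nonneg hB2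
      have h2 : c₀ / 2 * ρ * (N / ℓ ^ 3) * (c₁ * (ℓ * Real.log B)) ≤ (cnt k b N : ℝ) :=
        (mul_le_mul_of_nonneg_left hSsum (by positivity)).trans hlow
      have h3 : c₀ / 2 * cS * c₁ * gB b * (N * Real.log B / ℓ ^ 2) ≤
          c₀ / 2 * ρ * (N / ℓ ^ 3) * (c₁ * (ℓ * Real.log B)) := by
        have e2 : c₀ / 2 * ρ * (N / ℓ ^ 3) * (c₁ * (ℓ * Real.log B)) =
            c₀ / 2 * c₁ * (N * Real.log B / ℓ ^ 2) * ρ := by
          field_simp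
        have e3 : c₀ / 2 * cS * c₁ * gB b * (N * Real.log B / ℓ ^ 2) =
            c₀ / 2 * c₁ * (N * Real.log B / ℓ ^ 2) * (cS * gB b) := by ring
        rw [e2, e3]
        exact mul_le_mul_of_nonneg_left (by rw [hρ]; exact hgB) (by positivity)
      exact absurd (lt_of_lt_of_le hbc (h3.trans h2)) (lt_irrefl _)
    · intro q hq
      have h1 := (hlP q hq).1
      positivity
    · intro q hq
      change N / ℓ ^ 5 ≤ c₀ * ρ * (N / (ℓ ^ 3 * Real.log ((2 : ℝ) ^ q.2.1))) / 2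
      rw [hρ]
      exact mlow hc₀ hcE hcw1 hcP4 hN0 hl hVE hVP0 hVP1 (hlP q hq).1 (hlP q hq).2 hbig
    · intro q hq y hy
      have h1 := hM (2 ^ q.1) (2 ^ q.2.1) (2 ^ q.2.2) B (hS q hq) (U q)
        (by rw [← hℓ]; exact (hU q hq).1) b hbB hbB2 y (prim_of_sq (hY.sq y hy).1)
        (by
          rw [← hℓ]
          exact (hY.le y hy).trans (Real.rpow_le_rpow_of_exponent_le hl1 (by linarith)))
        (by
          intro π hπ hd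
          rw [← hℓ]
          have h := hY.rg y hy π hπ hd
          exact ⟨lt_of_le_of_lt (Real.rpow_le_rpow_of_exponent_le hl1 (le_max_left _ _)) h,
            lt_of_le_of_lt (Real.rpow_le_rpow_of_exponent_le hl1 (le_max_right _ _)) h⟩)
      rw [← hℓ, ← hρ] at h1
      have h2 := (hlP q hq).1
      have h3 : c₀ * ρ * (N / (ℓ ^ 3 * Real.log ((2 : ℝ) ^ q.2.1))) * (1 / (nm y : ℝ)) =
          c₀ * ρ * (N / (ℓ ^ 3 * Real.log ((2 : ℝ) ^ q.2.1) * nm y)) := by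
        rw [mul_assoc, div_mul_div_comm, mul_one]
      change c₀ * ρ * (N / (ℓ ^ 3 * Real.log ((2 : ℝ) ^ q.2.1))) * (1 / (nm y : ℝ)) ≤ _
      rw [h3]
      exact h1
    · intro q hq
      have h1 := hno q hq
      change ‖∑ y ∈ Y, sy (bp N ch cw q) y b
        (fun z => Eta (bp N ch cw q) z - Kap (bp N ch cw q) (U q) z)‖ < N / ℓ ^ 5 at h1
      simp only [sy_sub] at h1
      exact h1
  · intro q hq
    obtain ⟨-, g1, g2, g3, g4⟩ := hsz q hq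
    have hYOK : YOK (k - 4) (ℓ ^ max cw aQ) (bp N ch cw q).P Y := by
      refine ⟨hY.sq, hY.na, fun y hy => (hY.le y hy).trans ?_, hY.rg⟩
      have h1 := (hS q hq).P1
      rw [← hℓ] at h1
      exact (Real.rpow_le_rpow_of_exponent_le hl1 (by linarith)).trans h1
    have hcs := hCSX (k - 4) (bp N ch cw q) Y _ B
      (fun z => Eta (bp N ch cw q) z - Kap (bp N ch cw q) (U q) z) g1 g2 g3 g4 hYOK
    refine hcs.trans ?_
    have g3' : 1 ≤ (bp N ch cw q).K := g3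
    have hK0 : 0 ≤ 20 * (bp N ch cw q).K := by linarith
    refine (mul_le_mul_of_nonneg_left (hU q hq).2 hK0).trans (le_of_eq ?_)
    have hT0 : (0 : ℝ) < (2 : ℝ) ^ q.1 := by positivity
    have eK : (bp N ch cw q).K = N / (2 : ℝ) ^ q.1 := rfl
    have eT : (bp N ch cw q).T = (2 : ℝ) ^ q.1 := rfl
    rw [eK, eT]
    field_simp

end Pool.Agent.Lib.MP391708.XP
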