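import Pool.Agent.Lib.MP_391708_nt.XP.SpecO
import Pool.Agent.Lib.MP_391708_nt.X.UN

/-!
# THEOREM X+ (MP_391708), part O, module UNP: the union over the lengths and over `k` (helper45, from
helper2's `X/UN.lean`)
-/

set_option autoImplicit false

namespace Pool.Agent.Lib.MP391708.XP

open Finset Filter Topology
open Pool.Agent.Lib.MP391708.X (cnt PrK)

namespace UNPM

lemma cnt_eq (k b N : ℕ) : cnt k b (N : ℝ) = Q k b N := by
  unfold cnt Q PrK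
  rw [Nat.floor_natCast]
  congr

lemma Q_mono (k b : ℕ) {N N' : ℕ} (h : N ≤ N') : Q k b N ≤ Q k b N' := by
  unfold Q
  apply card_le_card
  apply filter_subset_filter
  exact Icc_subset_Icc le_rfl h

lemma gB_nonneg (b : ℕ) : 0 ≤ gB b := by
  unfold gB
  refine mul_nonneg (prod_nonneg fun p hp => ?_) (prod_nonneg fun p hp => ?_)
  · rw [mem_filter] at hp
    have h1 : (1 : ℝ) ≤ p := by exact_mod_cast (Nat.prime_of_mem_primeFactors hp.1).one_lt.le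
    exact div_nonneg (by linarith) (by linarith)
  · rw [mem_filter] at hp
    have h1 : (1 : ℝ) ≤ p := by exact_mod_cast (Nat.prime_of_mem_primeFactors hp.1).one_lt.le
    exact div_nonneg (by linarith) (by linarith)

/-- the exceptional set for one `k` -/
def Ek (k : ℕ) (c₁ c : ℝ) : Set ℕ := {b | ∃ j : ℕ, b ^ 2 ≤ 2 ^ (j + 1) ∧
  ((2 : ℝ) ^ j) ≤ Real.exp ((b : ℝ) ^ c) ∧
  (Q k b (2 ^ j) : ℝ) < c₁ / 2 * gB b * (((2 ^ j : ℕ) : ℝ) * Real.log b /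
    (Real.log ((2 ^ j : ℕ) : ℝ)) ^ 2)}

lemma outside (k : ℕ) (c₁ c : ℝ) (hc₁ : 0 < c₁) (b : ℕ) (hb : 4 ≤ b) (hE : b ∉ Ek k c₁ c) (N : ℕ)
    (hN : b ^ 2 ≤ N) (hN2 : (N : ℝ) ≤ Real.exp ((b : ℝ) ^ c)) :
    c₁ / 4 * gB b * ((N : ℝ) * Real.log b / (Real.log N) ^ 2) ≤ Q k b N := by
  have hN16 : 16 ≤ N := by nlinarith
  set j := Nat.log 2 N with hj
  have h1 : 2 ^ j ≤ N := Nat.pow_log_le_self 2 (by omega)
  have h2 : N < 2 ^ (j + 1) := Nat.lt_pow_succ_log_self (by norm_num) N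
  have h3 : ¬ ((Q k b (2 ^ j) : ℝ) < c₁ / 2 * gB b * (((2 ^ j : ℕ) : ℝ) * Real.log b /
    (Real.log ((2 ^ j : ℕ) : ℝ)) ^ 2)) := by
    intro h4
    apply hE
    refine ⟨j, by omega, ?_, h4⟩
    refine le_trans ?_ hN2
    exact_mod_cast h1
  have h3 := not_lt.1 h3
  have h5 : (Q k b (2 ^ j) : ℝ) ≤ Q k b N := by exact_mod_cast Q_mono k b h1
  refine le_trans ?_ (h3.trans h5)
  have hj4 : 4 ≤ j := Nat.le_log_of_pow_le (by norm_num) (by norm_num; omega)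
  have h2j : (0 : ℝ) < ((2 ^ j : ℕ) : ℝ) := by positivity
  have h2j' : (1 : ℝ) < ((2 ^ j : ℕ) : ℝ) := by
    have : 1 < 2 ^ j := Nat.one_lt_two_pow (by omega)
    exact_mod_cast this
  have hl0 : 0 < Real.log ((2 ^ j : ℕ) : ℝ) := Real.log_pos h2j'
  have hl1 : Real.log ((2 ^ j : ℕ) : ℝ) ≤ Real.log N := Real.log_le_log h2j (by exact_mod_cast h1)
  have h8 : (N : ℝ) ≤ 2 * ((2 ^ j : ℕ) : ℝ) := by
    have : N ≤ 2 * 2 ^ j := by rw [pow_succ] at h2; omega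
    exact_mod_cast this
  have hlb : 0 ≤ Real.log b := Real.log_nonneg (by exact_mod_cast (by omega : 1 ≤ b))
  have hg := gB_nonneg b
  have h9 : (N : ℝ) * Real.log b / (Real.log N) ^ 2 ≤
      2 * (((2 ^ j : ℕ) : ℝ) * Real.log b / (Real.log ((2 ^ j : ℕ) : ℝ)) ^ 2) := by
    have e : 2 * (((2 ^ j : ℕ) : ℝ) * Real.log b / (Real.log ((2 ^ j : ℕ) : ℝ)) ^ 2) =
        (2 * ((2 ^ j : ℕ) : ℝ)) * Real.log b / (Real.log ((2 ^ j : ℕ) : ℝ)) ^ 2 := by ring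
    rw [e]
    gcongr
  calc c₁ / 4 * gB b * ((N : ℝ) * Real.log b / (Real.log N) ^ 2)
      ≤ c₁ / 4 * gB b * (2 * (((2 ^ j : ℕ) : ℝ) * Real.log b /
        (Real.log ((2 ^ j : ℕ) : ℝ)) ^ 2)) := mul_le_mul_of_nonneg_left h9 (by positivity)
    _ = _ := by ring

open scoped Classical in
/-- one scale, powers of `2` -/
lemma scale (k A : ℕ) (hk : 4 ≤ k) (h : SpecONE) : ∃ c₁ C N₀ : ℝ, 0 < c₁ ∧ ∀ j i : ℕ,
    N₀ ≤ ((2 ^ j : ℕ) : ℝ) → Real.log ((2 ^ j : ℕ) : ℝ) ^ C ≤ ((2 ^ i : ℕ) : ℝ) →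
    ((2 ^ i : ℕ) : ℝ) ^ 2 ≤ ((2 ^ j : ℕ) : ℝ) →
    (((Ioc (2 ^ i) (2 * 2 ^ i)).filter (fun b => (Q k b (2 ^ j) : ℝ) <
      c₁ * gB b * (((2 ^ j : ℕ) : ℝ) * Real.log ((2 ^ i : ℕ) : ℝ) /
        (Real.log ((2 ^ j : ℕ) : ℝ)) ^ 2))).card : ℝ) ≤
      2 ^ i / (Real.log ((2 ^ j : ℕ) : ℝ)) ^ A := by
  obtain ⟨c₁, cB, hc₁, hcB⟩ := h k hk (A + 1) (by positivity)
  obtain ⟨N₁, hN₁⟩ := eventually_atTop.1 hcB
  refine ⟨c₁, cB, max N₁ (Real.exp 1), hc₁, fun j i hN hB1 hB2 => ?_⟩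
  have h1 := hN₁ ((2 ^ j : ℕ) : ℝ) ((le_max_left _ _).trans hN) ((2 ^ i : ℕ) : ℝ) hB1
    (by nlinarith [sq_nonneg (((2 ^ i : ℕ) : ℝ))])
  have hl : 1 ≤ Real.log ((2 ^ j : ℕ) : ℝ) := by
    rw [Real.le_log_iff_exp_le (lt_of_lt_of_le (Real.exp_pos 1) ((le_max_right _ _).trans hN))]
    exact (le_max_right _ _).trans hN
  have e1 : ⌊((2 ^ i : ℕ) : ℝ)⌋₊ = 2 ^ i := Nat.floor_natCast _
  have e2 : ⌊2 * ((2 ^ i : ℕ) : ℝ)⌋₊ = 2 * 2 ^ i := by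
    rw [show (2 : ℝ) * ((2 ^ i : ℕ) : ℝ) = ((2 * 2 ^ i : ℕ) : ℝ) by push_cast; ring,
      Nat.floor_natCast]
  rw [e1, e2] at h1
  simp only [cnt_eq] at h1
  refine (Eq.le ?_).trans (h1.trans ?_)
  · congr
  · rw [div_eq_mul_inv]
    have e3 : ((2 ^ i : ℕ) : ℝ) = 2 ^ i := by push_cast; rfl
    rw [e3]
    apply mul_le_mul_of_nonneg_left _ (by positivity)
    calc Real.log ((2 ^ j : ℕ) : ℝ) ^ (-((A : ℝ) + 1)) ≤ Real.log ((2 ^ j : ℕ) : ℝ) ^ (-(A : ℝ)) :=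
          Real.rpow_le_rpow_of_exponent_le hl (by linarith)
      _ = (Real.log ((2 ^ j : ℕ) : ℝ) ^ A)⁻¹ := by
          rw [Real.rpow_neg (by linarith), Real.rpow_natCast]

open scoped Classical in
lemma one_block (k A : ℕ) (hk : 4 ≤ k) (h : SpecONE) : ∃ c c₁ : ℝ, 0 < c ∧ 0 < c₁ ∧
    ∃ i₀ : ℕ, ∀ i : ℕ, i₀ ≤ i →
    (((Ioc (2 ^ i) (2 ^ (i + 1))).filter (fun b => b ∈ Ek k c₁ c)).card : ℝ) ≤
      8 * 2 ^ i / (i : ℝ) ^ (A + 1) := by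
  obtain ⟨c₁, C, N₀, hc₁, h1⟩ := scale k (A + 3) hk h
  set C' := max C 1 with hC'
  have hC1 : 1 ≤ C' := le_max_right _ _
  set c : ℝ := 1 / (2 * C') with hc
  have hc0 : 0 < c := by positivity
  have hcC : c * C' = 1 / 2 := by rw [hc]; field_simp
  refine ⟨c, c₁, hc0, hc₁, ?_⟩
  obtain ⟨i₁, hi₁⟩ : ∃ i₁ : ℕ, N₀ ≤ 2 ^ i₁ :=
    pow_unbounded_of_one_lt N₀ (by norm_num) |>.imp fun _ h => h.le
  refine ⟨i₁ + 3, fun i hi => ?_⟩
  have hi3 : 3 ≤ i := by omega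
  have hi0 : (0 : ℝ) < i := by exact_mod_cast (by omega : 0 < i)
  -- the scales
  obtain ⟨M, hM⟩ : ∃ M : ℕ, Real.exp (((2 ^ (i + 1) : ℕ) : ℝ) ^ c) < 2 ^ M :=
    pow_unbounded_of_one_lt _ (by norm_num)
  set J := (Ico (2 * i) M).filter
    (fun j => ((2 : ℝ) ^ j) ≤ Real.exp (((2 ^ (i + 1) : ℕ) : ℝ) ^ c)) with hJ
  have hsub : (Ioc (2 ^ i) (2 ^ (i + 1))).filter (fun b => b ∈ Ek k c₁ c) ⊆
      J.biUnion (fun j => (Ioc (2 ^ i) (2 * 2 ^ i)).filter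
        (fun b => (Q k b (2 ^ j) : ℝ) < c₁ * gB b *
          (((2 ^ j : ℕ) : ℝ) * Real.log ((2 ^ i : ℕ) : ℝ) /
            (Real.log ((2 ^ j : ℕ) : ℝ)) ^ 2))) := by
    intro b hb
    rw [mem_filter, mem_Ioc] at hb
    obtain ⟨⟨hb1, hb2⟩, j, hj1, hj2, hj3⟩ := hb
    rw [mem_biUnion]
    have hbc : ((2 : ℝ) ^ j) ≤ Real.exp (((2 ^ (i + 1) : ℕ) : ℝ) ^ c) := by
      refine hj2.trans (Real.exp_le_exp.2 ?_)
      apply Real.rpow_le_rpow (by positivity) _ hc0.le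
      exact_mod_cast hb2
    refine ⟨j, ?_, ?_⟩
    · rw [hJ, mem_filter, mem_Ico]
      refine ⟨⟨?_, ?_⟩, hbc⟩
      · have h5 : 2 ^ (2 * i) < 2 ^ (j + 1) := by
          calc 2 ^ (2 * i) = (2 ^ i) ^ 2 := by rw [← pow_mul]; ring_nf
            _ < b ^ 2 := Nat.pow_lt_pow_left hb1 (by norm_num)
            _ ≤ 2 ^ (j + 1) := hj1
        have := (Nat.pow_lt_pow_iff_right (by norm_num : 1 < 2)).1 h5
        omega
      · have h5 : (2 : ℝ) ^ j < 2 ^ M := hbc.trans_lt hM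
        exact (pow_lt_pow_iff_right₀ (by norm_num : (1 : ℝ) < 2)).1 h5
    · rw [mem_filter, mem_Ioc]
      refine ⟨⟨hb1, by rw [pow_succ] at hb2; omega⟩, lt_of_lt_of_le hj3 ?_⟩
      have hg := gB_nonneg b
      have hb0 : (0 : ℝ) < b := by exact_mod_cast (by omega : 0 < b)
      have hlog : Real.log b ≤ 2 * Real.log ((2 ^ i : ℕ) : ℝ) := by
        have h6 : (b : ℝ) ≤ ((2 ^ i : ℕ) : ℝ) ^ 2 := by
          have h7 : b ≤ (2 ^ i) ^ 2 := by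
            refine hb2.trans ?_
            rw [← pow_mul]
            exact Nat.pow_le_pow_right (by norm_num) (by omega)
          exact_mod_cast h7
        calc Real.log b ≤ Real.log (((2 ^ i : ℕ) : ℝ) ^ 2) := Real.log_le_log hb0 h6
          _ = _ := by rw [Real.log_pow]; norm_num
      have h9 : ((2 ^ j : ℕ) : ℝ) * Real.log b / (Real.log ((2 ^ j : ℕ) : ℝ)) ^ 2 ≤
          2 * (((2 ^ j : ℕ) : ℝ) * Real.log ((2 ^ i : ℕ) : ℝ) /
            (Real.log ((2 ^ j : ℕ) : ℝ)) ^ 2) := by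
        have e : 2 * (((2 ^ j : ℕ) : ℝ) * Real.log ((2 ^ i : ℕ) : ℝ) /
            (Real.log ((2 ^ j : ℕ) : ℝ)) ^ 2) =
            ((2 ^ j : ℕ) : ℝ) * (2 * Real.log ((2 ^ i : ℕ) : ℝ)) /
              (Real.log ((2 ^ j : ℕ) : ℝ)) ^ 2 := by ring
        rw [e]
        gcongr
      calc c₁ / 2 * gB b * (((2 ^ j : ℕ) : ℝ) * Real.log b / (Real.log ((2 ^ j : ℕ) : ℝ)) ^ 2)
          ≤ c₁ / 2 * gB b * (2 * (((2 ^ j : ℕ) : ℝ) * Real.log ((2 ^ i : ℕ) : ℝ) /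
            (Real.log ((2 ^ j : ℕ) : ℝ)) ^ 2)) := mul_le_mul_of_nonneg_left h9 (by positivity)
        _ = _ := by ring
  have hcard : (((Ioc (2 ^ i) (2 ^ (i + 1))).filter (fun b => b ∈ Ek k c₁ c)).card : ℝ) ≤
      ∑ j ∈ J, (2 : ℝ) ^ i / (Real.log ((2 ^ j : ℕ) : ℝ)) ^ (A + 3) := by
    refine le_trans (Nat.cast_le.2 ((card_le_card hsub).trans card_biUnion_le)) ?_
    rw [Nat.cast_sum]
    refine sum_le_sum fun j hj => ?_
    rw [hJ, mem_filter, mem_Ico] at hj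
    obtain ⟨⟨hj1, -⟩, hj2⟩ := hj
    have hlog : Real.log ((2 ^ j : ℕ) : ℝ) ≤ ((2 ^ (i + 1) : ℕ) : ℝ) ^ c := by
      have : Real.log ((2 ^ j : ℕ) : ℝ) ≤ Real.log (Real.exp (((2 ^ (i + 1) : ℕ) : ℝ) ^ c)) :=
        Real.log_le_log (by positivity) (by push_cast; push_cast at hj2; exact hj2)
      rwa [Real.log_exp] at this
    have hlog1 : 1 ≤ Real.log ((2 ^ j : ℕ) : ℝ) := by
      push_cast
      rw [Real.log_pow]
      have : (6 : ℝ) ≤ j := by exact_mod_cast (by omega : 6 ≤ j)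
      nlinarith [Real.log_two_gt_d9]
    refine h1 j i ?_ ?_ ?_
    · refine hi₁.trans ?_
      push_cast
      exact pow_le_pow_right₀ (by norm_num) (by omega)
    · calc Real.log ((2 ^ j : ℕ) : ℝ) ^ C ≤ Real.log ((2 ^ j : ℕ) : ℝ) ^ C' :=
            Real.rpow_le_rpow_of_exponent_le hlog1 (le_max_left _ _)
        _ ≤ (((2 ^ (i + 1) : ℕ) : ℝ) ^ c) ^ C' := by
            apply Real.rpow_le_rpow (by linarith) hlog (by linarith)
        _ = ((2 ^ (i + 1) : ℕ) : ℝ) ^ (1 / 2 : ℝ) := by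
            rw [← Real.rpow_mul (by positivity), hcC]
        _ = ((2 : ℝ) ^ ((i : ℝ) + 1)) ^ (1 / 2 : ℝ) := by
            congr 1
            push_cast
            rw [← Real.rpow_natCast 2 (i + 1)]
            push_cast; rfl
        _ = (2 : ℝ) ^ (((i : ℝ) + 1) * (1 / 2)) := by rw [← Real.rpow_mul (by norm_num)]
        _ ≤ (2 : ℝ) ^ (i : ℝ) := by
            apply Real.rpow_le_rpow_of_exponent_le (by norm_num)
            have : (3 : ℝ) ≤ i := by exact_mod_cast hi3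
            linarith
        _ = ((2 ^ i : ℕ) : ℝ) := by rw [Real.rpow_natCast]; push_cast; rfl
    · push_cast
      rw [← pow_mul]
      exact pow_le_pow_right₀ (by norm_num) (by omega)
  refine hcard.trans ?_
  have hterm : ∀ j ∈ J, (2 : ℝ) ^ i / (Real.log ((2 ^ j : ℕ) : ℝ)) ^ (A + 3) ≤
      (4 * 2 ^ i / (i : ℝ) ^ (A + 1)) * (1 / (j : ℝ) ^ 2) := by
    intro j hj
    rw [hJ, mem_filter, mem_Ico] at hj
    obtain ⟨⟨hj1, -⟩, -⟩ := hj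
    have hj1R : (2 : ℝ) * i ≤ j := by exact_mod_cast hj1
    have hj0 : (0 : ℝ) < j := by linarith
    have hl : (j : ℝ) / 2 ≤ Real.log ((2 ^ j : ℕ) : ℝ) := by
      push_cast
      rw [Real.log_pow]
      nlinarith [Real.log_two_gt_d9]
    have hl0 : (i : ℝ) ≤ Real.log ((2 ^ j : ℕ) : ℝ) := by linarith
    have h7 : (i : ℝ) ^ (A + 1) * ((j : ℝ) / 2) ^ 2 ≤
        (Real.log ((2 ^ j : ℕ) : ℝ)) ^ (A + 3) := by
      rw [show A + 3 = (A + 1) + 2 by ring, pow_add _ (A + 1) 2]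
      gcongr
    calc (2 : ℝ) ^ i / (Real.log ((2 ^ j : ℕ) : ℝ)) ^ (A + 3)
        ≤ 2 ^ i / ((i : ℝ) ^ (A + 1) * ((j : ℝ) / 2) ^ 2) := by
          gcongr
      _ = (4 * 2 ^ i / (i : ℝ) ^ (A + 1)) * (1 / (j : ℝ) ^ 2) := by
          field_simp
          ring
  calc ∑ j ∈ J, (2 : ℝ) ^ i / (Real.log ((2 ^ j : ℕ) : ℝ)) ^ (A + 3)
      ≤ ∑ j ∈ J, (4 * 2 ^ i / (i : ℝ) ^ (A + 1)) * (1 / (j : ℝ) ^ 2) := sum_le_sum hterm
    _ = (4 * 2 ^ i / (i : ℝ) ^ (A + 1)) * ∑ j ∈ J, (1 / (j : ℝ) ^ 2) := by rw [mul_sum]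
    _ ≤ (4 * 2 ^ i / (i : ℝ) ^ (A + 1)) * 2 := by
        gcongr
        exact Pool.Agent.Lib.MP391708.X.UNM.sum_inv_sq_le J
    _ = _ := by ring

open scoped Classical in
/-- the count in a dyadic block gives the count up to `x` -/
lemma count_of_blocks (E : Set ℕ) (K : ℝ) (hK : 0 ≤ K) (A i₀ : ℕ)
    (h : ∀ i : ℕ, i₀ ≤ i → (((Ioc (2 ^ i) (2 ^ (i + 1))).filter (fun b => b ∈ E)).card : ℝ) ≤
      K * 2 ^ i / (i : ℝ) ^ (A + 1)) :
    ∀ᶠ x : ℕ in atTop, (count E x : ℝ) ≤ x / (Real.log x) ^ A :=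
  Pool.Agent.Lib.MP391708.X.UNM.count_of_blocks E K hK A i₀ h

/-- countably many exceptional sets with the same bound -/
lemma union_sets (A : ℕ) (F : ℕ → Set ℕ)
    (h : ∀ k, ∀ᶠ x : ℕ in atTop, (count (F k) x : ℝ) ≤ x / (Real.log x) ^ (A + 1)) :
    ∃ E : Set ℕ, (∀ᶠ x : ℕ in atTop, (count E x : ℝ) ≤ x / (Real.log x) ^ A) ∧
      ∀ k, ∃ b₀ : ℕ, ∀ b, b₀ ≤ b → b ∈ F k → b ∈ E :=
  Pool.Agent.Lib.MP391708.X.UNM.union_sets A F h

end UNPM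

open UNPM in
/-- **UNP**: the union over the lengths and over `k`. -/
theorem specUNP : SpecUNP := by
  intro hONE hHGB A
  classical
  obtain ⟨C, hC, hH⟩ := hHGB
  have h1 : ∀ k, 4 ≤ k → ∃ c c₁ : ℝ, 0 < c ∧ 0 < c₁ ∧ ∀ᶠ x : ℕ in atTop,
      (count (Ek k c₁ c) x : ℝ) ≤ x / (Real.log x) ^ (A + 1) := by
    intro k hk
    obtain ⟨c, c₁, hc, hc₁, i₀, h2⟩ := one_block k (A + 1) hk hONE
    exact ⟨c, c₁, hc, hc₁, count_of_blocks _ 8 (by norm_num) (A + 1) i₀ h2⟩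
  choose c c₁ hc hc₁ hcnt using h1
  obtain ⟨E, hE1, hE2⟩ := union_sets A
    (fun k => if hk : 4 ≤ k then Ek k (c₁ k hk) (c k hk) else ∅) (by
    intro k
    by_cases hk : 4 ≤ k
    · simp only [hk, dite_true]
      exact hcnt k hk
    · simp only [hk, dite_false]
      filter_upwards [eventually_ge_atTop 3] with x hx
      have : count ∅ x = 0 := by unfold count; simp
      have hL : 0 < Real.log x := Real.log_pos (by exact_mod_cast (by omega : 1 < x))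
      rw [this, Nat.cast_zero]
      exact div_nonneg (Nat.cast_nonneg x) (pow_nonneg hL.le _))
  refine ⟨E, hE1, fun k hk => ⟨min (c k hk) (c₁ k hk / (4 * C)),
    lt_min (hc k hk) (div_pos (hc₁ k hk) (by positivity)), ?_⟩⟩
  obtain ⟨b₀, hb₀⟩ := hE2 k
  refine ⟨max b₀ 4, fun b hb hbE => ?_⟩
  have hb4 : 4 ≤ b := (le_max_right _ _).trans hb
  obtain ⟨h, hh, hconst, hle⟩ := hH b (by omega)
  refine ⟨h, hh, hconst, fun N hN hN2 => ?_⟩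
  have hb1 : (1 : ℝ) ≤ b := by exact_mod_cast (by omega : 1 ≤ b)
  have hN3 : (N : ℝ) ≤ Real.exp ((b : ℝ) ^ (c k hk)) := by
    refine hN2.trans (Real.exp_le_exp.2 ?_)
    exact Real.rpow_le_rpow_of_exponent_le hb1 (min_le_left _ _)
  have hnot : b ∉ Ek k (c₁ k hk) (c k hk) := by
    intro hmem
    apply hbE
    apply hb₀ b ((le_max_left _ _).trans hb)
    simp only [hk, dite_true]
    exact hmem
  refine le_trans ?_ (outside k (c₁ k hk) (c k hk) (hc₁ k hk) b hb4 hnot N hN hN3)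
  have hlb : 0 ≤ Real.log b := Real.log_nonneg hb1
  have hx : 0 ≤ (N : ℝ) * Real.log b / (Real.log N) ^ 2 := by positivity
  refine mul_le_mul_of_nonneg_right ?_ hx
  have hmin : min (c k hk) (c₁ k hk / (4 * C)) ≤ c₁ k hk / (4 * C) := min_le_right _ _
  calc min (c k hk) (c₁ k hk / (4 * C)) * h ≤ c₁ k hk / (4 * C) * h :=
        mul_le_mul_of_nonneg_right hmin hh.le
    _ ≤ c₁ k hk / (4 * C) * (C * gB b) :=
        mul_le_mul_of_nonneg_left hle (div_pos (hc₁ k hk) (by positivity)).le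
    _ = c₁ k hk / 4 * gB b := by
        field_simp

end Pool.Agent.Lib.MP391708.XP
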