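import Pool.Agent.Lib.MP_391708_nt.XP.SpecO
import Pool.Agent.Lib.MP_391708_nt.QPA.EUL
import Pool.Agent.Lib.MP_391708_nt.QPA.CONV
import Pool.Agent.Lib.MP_391708_nt.QPA.Rho

/-!
# THEOREM X+ (MP_391708), part O, H1C: the constant for `b = 1`

The case `a = 1` of `QPA.specCONV` (every `a` such that `-a` is not a square).
-/

set_option autoImplicit false

namespace Pool.Agent.Lib.MP391708.XP

open Finset Filter Topology

namespace H1CM

/-- `-1` is not a square -/
lemma not_isSquare : ¬ IsSquare (-(1 : ℤ)) := by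
  rintro ⟨r, hr⟩
  have := mul_self_nonneg r
  omega

end H1CM

theorem specH1C : SpecH1C := by
  obtain ⟨h, h0, hh⟩ := QPA.specCONV QPA.specEUL QPA.specRHOP QPA.specRHO2 1 H1CM.not_isSquare
  refine ⟨h, h0, ?_⟩
  unfold IsConst
  refine hh.congr fun X => ?_
  rw [QPA.CONV.Gw_eq QPA.specRHOP QPA.specRHO2]
  simp

end Pool.Agent.Lib.MP391708.XP
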