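import Pool.Agent.Lib.MP_391708_nt.XP.SpecO

/-!
# THEOREM X+ (MP_391708), part O, module HGB: the constant for `b` (helper1)
-/

set_option autoImplicit false

namespace Pool.Agent.Lib.MP391708.XP

open Finset Filter Topology

namespace HGBM

/-- the factor of the prime `w` -/
noncomputable def F (b w : ℕ) : ℝ := 1 - (jacobiSym (-((b : ℤ) ^ 2)) w : ℝ) / ((w : ℝ) - 1)

lemma js_one {w : ℕ} (ho : Odd w) :
    jacobiSym (-(((1 : ℕ) : ℤ) ^ 2)) w = ZMod.χ₄ w := by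
  rw [← jacobiSym.at_neg_one ho]
  simp

lemma F1_one {w : ℕ} (h : w % 4 = 1) : F 1 w = 1 - 1 / ((w : ℝ) - 1) := by
  unfold F
  rw [js_one (Nat.odd_iff.2 (by omega)), ZMod.χ₄_nat_one_mod_four h]
  norm_num

lemma F1_three {w : ℕ} (h : w % 4 = 3) : F 1 w = 1 + 1 / ((w : ℝ) - 1) := by
  unfold F
  rw [js_one (Nat.odd_iff.2 (by omega)), ZMod.χ₄_nat_three_mod_four h]
  push_cast
  ring

lemma F_dvd {b w : ℕ} (hw : w.Prime) (h : w ∣ b) : F b w = 1 := by
  have : NeZero w := ⟨hw.ne_zero⟩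
  have h1 : jacobiSym (-((b : ℤ) ^ 2)) w = 0 := by
    rw [jacobiSym.eq_zero_iff_not_coprime]
    intro h2
    have h3 : (w : ℤ) ∣ -((b : ℤ) ^ 2) := by
      rw [dvd_neg]
      exact dvd_pow (Int.natCast_dvd_natCast.2 h) two_ne_zero
    have h4 : w ∣ Int.gcd (-((b : ℤ) ^ 2)) w := by
      have := Int.dvd_gcd h3 (dvd_refl (w : ℤ))
      exact_mod_cast this
    rw [h2] at h4
    exact hw.one_lt.ne' (Nat.dvd_one.1 h4)
  unfold F
  rw [h1]
  simp

lemma F_ndvd {b w : ℕ} (hw : w.Prime) (h : ¬ w ∣ b) : F b w = F 1 w := by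
  have h1 : Int.gcd (b : ℤ) w = 1 := by
    rw [Int.gcd_natCast_natCast]
    exact ((Nat.Prime.coprime_iff_not_dvd hw).2 h).symm
  have h2 : jacobiSym (-((b : ℤ) ^ 2)) w = jacobiSym (-(((1 : ℕ) : ℤ) ^ 2)) w := by
    have h3 : jacobiSym (-((b : ℤ) ^ 2)) w = jacobiSym (-1) w * jacobiSym ((b : ℤ) ^ 2) w := by
      rw [← jacobiSym.mul_left]
      congr 1
      ring
    rw [h3, jacobiSym.sq_one' h1]
    simp
  unfold F
  rw [h2]

lemma F1_pos {w : ℕ} (hw : w.Prime) (h2 : w ≠ 2) : 0 < F 1 w := by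
  have h3 : w % 4 = 1 ∨ w % 4 = 3 := Nat.odd_mod_four_iff.1 (Nat.odd_iff.1 (hw.odd_of_ne_two h2))
  rcases h3 with h3 | h3
  · rw [F1_one h3]
    have h5 : 5 ≤ w := by
      have := hw.two_le
      by_contra h6
      interval_cases w <;> omega
    have h6 : (5 : ℝ) ≤ w := by exact_mod_cast h5
    have h7 : 1 / ((w : ℝ) - 1) < 1 := by
      rw [div_lt_one (by linarith)]
      linarith
    linarith
  · rw [F1_three h3]
    have h6 : (2 : ℝ) ≤ w := by exact_mod_cast hw.two_le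
    have : 0 < 1 / ((w : ℝ) - 1) := by
      apply one_div_pos.2
      linarith
    linarith

/-- the odd primes up to `X` -/
def R (X : ℕ) : Finset ℕ := (range (X + 1)).filter (fun w => Nat.Prime w ∧ w ≠ 2)

/-- the odd primes which divide `b` -/
def W (b : ℕ) : Finset ℕ := b.primeFactors.filter (fun w => w ≠ 2)

lemma split {b X : ℕ} (hb : 1 ≤ b) (hX : b ≤ X) :
    ∏ w ∈ R X, F 1 w = (∏ w ∈ R X, F b w) * ∏ w ∈ W b, F 1 w := by
  have h1 : W b = (R X).filter (fun w => w ∣ b) := by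
    ext w
    unfold W R
    simp only [mem_filter, Nat.mem_primeFactors, mem_range]
    constructor
    · rintro ⟨⟨h1, h2, h3⟩, h4⟩
      exact ⟨⟨by have := Nat.le_of_dvd hb h2; omega, h1, h4⟩, h2⟩
    · rintro ⟨⟨h1, h2, h3⟩, h4⟩
      exact ⟨⟨h2, h4, by omega⟩, h3⟩
  rw [h1, Finset.prod_filter, ← Finset.prod_mul_distrib]
  refine Finset.prod_congr rfl fun w hw => ?_
  have hp : w.Prime := (mem_filter.1 hw).2.1
  split_ifs with h
  · rw [F_dvd hp h, one_mul]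
  · rw [F_ndvd hp h, mul_one]

lemma tele (n : ℕ) : ∏ w ∈ Ico 5 (n + 5), (((w : ℝ) - 1) ^ 2 / (w * (w - 2))) =
    4 * ((n : ℝ) + 3) / (3 * ((n : ℝ) + 4)) := by
  induction n with
  | zero => norm_num
  | succ n ih =>
    rw [show n + 1 + 5 = (n + 5) + 1 by ring, Finset.prod_Ico_succ_top (by omega), ih]
    push_cast
    have h1 : (n : ℝ) + 5 ≠ 0 := by positivity
    have h2 : (n : ℝ) + 5 - 2 ≠ 0 := by
      have : (0 : ℝ) ≤ n := Nat.cast_nonneg n
      linarith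
    have h3 : (n : ℝ) + 4 ≠ 0 := by positivity
    have h4 : (n : ℝ) + 1 + 4 ≠ 0 := by positivity
    have h5 : (n : ℝ) + 5 - 2 = n + 3 := by ring
    have h6 : (n : ℝ) + 3 ≠ 0 := by positivity
    rw [h5]
    field_simp
    ring

lemma tele_le {S : Finset ℕ} {n : ℕ} (h : S ⊆ Ico 5 (n + 5)) :
    ∏ w ∈ S, (((w : ℝ) - 1) ^ 2 / (w * (w - 2))) ≤ 4 / 3 := by
  have h1 : ∀ w ∈ Ico 5 (n + 5), (1 : ℝ) ≤ ((w : ℝ) - 1) ^ 2 / (w * (w - 2)) := by
    intro w hw
    have h2 : (5 : ℝ) ≤ w := by exact_mod_cast (mem_Ico.1 hw).1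
    rw [one_le_div (by nlinarith)]
    nlinarith
  have h2 : (1 : ℝ) ≤ ∏ w ∈ Ico 5 (n + 5) \ S, (((w : ℝ) - 1) ^ 2 / (w * (w - 2))) := by
    have := Finset.prod_le_prod (s := Ico 5 (n + 5) \ S) (f := fun _ => (1 : ℝ))
      (g := fun w : ℕ => (((w : ℝ) - 1) ^ 2 / (w * (w - 2)))) (fun _ _ => zero_le_one)
      (fun w hw => h1 w (mem_sdiff.1 hw).1)
    rwa [Finset.prod_const_one] at this
  have h3 : 0 ≤ ∏ w ∈ S, (((w : ℝ) - 1) ^ 2 / (w * (w - 2))) :=
    Finset.prod_nonneg fun w hw => zero_le_one.trans (h1 w (h hw))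
  have h4 := Finset.prod_sdiff (f := fun w : ℕ => (((w : ℝ) - 1) ^ 2 / (w * (w - 2)))) h
  rw [tele] at h4
  have h5 : 4 * ((n : ℝ) + 3) / (3 * (n + 4)) ≤ 4 / 3 := by
    rw [div_le_div_iff₀ (by positivity) (by norm_num)]
    nlinarith
  nlinarith

lemma bound (b : ℕ) : (∏ w ∈ W b, F 1 w)⁻¹ ≤ 4 / 3 * gB b := by
  rw [← Finset.prod_inv_distrib]
  have h1 : (W b).filter (fun w => w % 4 = 1) = b.primeFactors.filter (fun w => w % 4 = 1) := by
    ext w
    unfold W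
    simp only [mem_filter]
    constructor
    · rintro ⟨⟨h1, -⟩, h2⟩
      exact ⟨h1, h2⟩
    · rintro ⟨h1, h2⟩
      exact ⟨⟨h1, by rintro rfl; omega⟩, h2⟩
  have h3 : (W b).filter (fun w => ¬ w % 4 = 1) = b.primeFactors.filter (fun w => w % 4 = 3) := by
    ext w
    unfold W
    simp only [mem_filter]
    constructor
    · rintro ⟨⟨h1, h3⟩, h2⟩
      have hp : w.Prime := Nat.prime_of_mem_primeFactors h1
      rcases Nat.odd_mod_four_iff.1 (Nat.odd_iff.1 (hp.odd_of_ne_two h3)) with h | h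
      · exact absurd h h2
      · exact ⟨h1, h⟩
    · rintro ⟨h1, h2⟩
      exact ⟨⟨h1, by rintro rfl; omega⟩, by omega⟩
  rw [← Finset.prod_filter_mul_prod_filter_not (W b) (fun w => w % 4 = 1), h1, h3]
  have e1 : ∏ w ∈ b.primeFactors.filter (fun w => w % 4 = 1), (F 1 w)⁻¹ =
      (∏ w ∈ b.primeFactors.filter (fun w => w % 4 = 1), ((w : ℝ) / ((w : ℝ) - 1))) *
      ∏ w ∈ b.primeFactors.filter (fun w => w % 4 = 1), (((w : ℝ) - 1) ^ 2 / (w * (w - 2))) := by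
    rw [← Finset.prod_mul_distrib]
    refine Finset.prod_congr rfl fun w hw => ?_
    obtain ⟨h4, h5⟩ := mem_filter.1 hw
    have hp : w.Prime := Nat.prime_of_mem_primeFactors h4
    have h6 : (5 : ℝ) ≤ w := by
      have h7 : 5 ≤ w := by
        have := hp.two_le
        by_contra h6
        interval_cases w <;> omega
      exact_mod_cast h7
    rw [F1_one h5]
    have a1 : (w : ℝ) - 1 ≠ 0 := by linarith
    have a2 : (w : ℝ) - 2 ≠ 0 := by linarith
    have a3 : (w : ℝ) ≠ 0 := by linarith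
    have a4 : 1 - 1 / ((w : ℝ) - 1) = (w - 2) / (w - 1) := by
      field_simp
      ring
    rw [a4, inv_div]
    field_simp
  have e3 : ∏ w ∈ b.primeFactors.filter (fun w => w % 4 = 3), (F 1 w)⁻¹ =
      ∏ w ∈ b.primeFactors.filter (fun w => w % 4 = 3), (((w : ℝ) - 1) / (w : ℝ)) := by
    refine Finset.prod_congr rfl fun w hw => ?_
    obtain ⟨h4, h5⟩ := mem_filter.1 hw
    have hp : w.Prime := Nat.prime_of_mem_primeFactors h4
    have h6 : (2 : ℝ) ≤ w := by exact_mod_cast hp.two_le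
    rw [F1_three h5]
    have a1 : (w : ℝ) - 1 ≠ 0 := by linarith
    have a3 : (w : ℝ) ≠ 0 := by linarith
    have a4 : 1 + 1 / ((w : ℝ) - 1) = w / (w - 1) := by
      field_simp
      ring
    rw [a4, inv_div]
  rw [e1, e3]
  have t : ∏ w ∈ b.primeFactors.filter (fun w => w % 4 = 1), (((w : ℝ) - 1) ^ 2 / (w * (w - 2))) ≤
      4 / 3 := by
    refine tele_le (n := b) fun w hw => ?_
    obtain ⟨h4, h5⟩ := mem_filter.1 hw
    have hp : w.Prime := Nat.prime_of_mem_primeFactors h4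
    have h8 : w ≤ b := Nat.le_of_mem_primeFactors h4
    rw [mem_Ico]
    refine ⟨?_, by omega⟩
    have := hp.two_le
    by_contra h6
    interval_cases w <;> omega
  have p1 : 0 ≤ ∏ w ∈ b.primeFactors.filter (fun w => w % 4 = 1), ((w : ℝ) / ((w : ℝ) - 1)) := by
    refine Finset.prod_nonneg fun w hw => ?_
    have hp : w.Prime := Nat.prime_of_mem_primeFactors (mem_filter.1 hw).1
    have h6 : (2 : ℝ) ≤ w := by exact_mod_cast hp.two_le
    exact div_nonneg (by linarith) (by linarith)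
  have p3 : 0 ≤ ∏ w ∈ b.primeFactors.filter (fun w => w % 4 = 3), (((w : ℝ) - 1) / (w : ℝ)) := by
    refine Finset.prod_nonneg fun w hw => ?_
    have hp : w.Prime := Nat.prime_of_mem_primeFactors (mem_filter.1 hw).1
    have h6 : (2 : ℝ) ≤ w := by exact_mod_cast hp.two_le
    exact div_nonneg (by linarith) (by linarith)
  unfold gB
  have h9 := mul_le_mul_of_nonneg_left t (mul_nonneg p1 p3)
  calc _ = (∏ w ∈ b.primeFactors.filter (fun w => w % 4 = 1), ((w : ℝ) / ((w : ℝ) - 1))) *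
        (∏ w ∈ b.primeFactors.filter (fun w => w % 4 = 3), (((w : ℝ) - 1) / (w : ℝ))) *
        ∏ w ∈ b.primeFactors.filter (fun w => w % 4 = 1), (((w : ℝ) - 1) ^ 2 / (w * (w - 2))) := by
        ring
    _ ≤ _ := h9
    _ = _ := by ring

end HGBM

open HGBM in
/-- The constant for `b`. -/
theorem specHGB (hH1C : SpecH1C) : SpecHGB := by
  obtain ⟨h1, hp, hc⟩ := hH1C
  refine ⟨h1 * (4 / 3), by positivity, fun b hb => ?_⟩
  have hD : 0 < ∏ w ∈ W b, F 1 w := by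
    refine Finset.prod_pos fun w hw => ?_
    obtain ⟨h4, h5⟩ := mem_filter.1 hw
    exact F1_pos (Nat.prime_of_mem_primeFactors h4) h5
  refine ⟨h1 * (∏ w ∈ W b, F 1 w)⁻¹, by positivity, ?_, ?_⟩
  · have h2 : Tendsto (fun X : ℕ => (∏ w ∈ R X, F 1 w) * (∏ w ∈ W b, F 1 w)⁻¹) atTop
        (𝓝 (h1 * (∏ w ∈ W b, F 1 w)⁻¹)) := Tendsto.mul_const _ hc
    refine h2.congr' ?_
    filter_upwards [eventually_ge_atTop b] with X hX
    rw [split hb hX, mul_assoc, mul_inv_cancel₀ hD.ne', mul_one]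
    rfl
  · rw [mul_assoc]
    exact mul_le_mul_of_nonneg_left (bound b) hp.le

end Pool.Agent.Lib.MP391708.XP
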