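import Pool.Agent.Lib.MP_391708_nt.XP.SpecO
import Pool.Agent.Lib.MP_391708_nt.X.GBB
import Pool.Agent.Lib.MP_391708_nt.X.VPL

/-!
# THEOREM X+ (MP_391708), part O: module SSB (helper92): the ratio of the sieve products
-/

set_option autoImplicit false

namespace Pool.Agent.Lib.MP391708.XP

open Finset Filter Topology Pool.Agent.Lib.MP391708.MR
open Pool.Agent.Lib.MP391708.X (PI VP)
open Pool.Agent.Lib.MP391708.XL (VS PS gb pt)

namespace SSBM

/-- the primes `p ≡ 1 mod 4`, `p ≤ w` -/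
noncomputable def P1 (w : ℝ) : Finset ℕ := (range (⌊w⌋₊ + 1)).filter (fun p => p.Prime ∧ p % 4 = 1)

lemma mem_P1 {w : ℝ} (hw : 0 ≤ w) {p : ℕ} : p ∈ P1 w ↔ (p : ℝ) ≤ w ∧ p.Prime ∧ p % 4 = 1 := by
  unfold P1
  rw [mem_filter, mem_range, Nat.lt_succ_iff, Nat.le_floor_iff hw]

lemma five_le {p : ℕ} (hp : p.Prime) (h : p % 4 = 1) : 5 ≤ p := by
  have := hp.two_le
  omega

lemma prod_sub {ι : Type*} {S T : Finset ι} (h : S ⊆ T) {f : ι → ℝ} (h0 : ∀ i ∈ T, 0 ≤ f i)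
    (h1 : ∀ i ∈ T, f i ≤ 1) : ∏ i ∈ T, f i ≤ ∏ i ∈ S, f i := by
  classical
  rw [← prod_sdiff h]
  have a : ∏ i ∈ T \ S, f i ≤ 1 := prod_le_one (fun i hi => h0 i (Finset.mem_sdiff.1 hi).1)
    (fun i hi => h1 i (Finset.mem_sdiff.1 hi).1)
  have b : 0 ≤ ∏ i ∈ S, f i := prod_nonneg (fun i hi => h0 i (h hi))
  nlinarith

/-- two points of the quarter plane with norm `p` -/
lemma two_card {w : ℝ} {p : ℕ} (hp : p.Prime) (h1 : p % 4 = 1) (hw : (p : ℝ) ≤ w) :
    2 ≤ ((PI w).filter (fun π => nm π = p)).card := by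
  haveI : Fact p.Prime := ⟨hp⟩
  obtain ⟨a, b, hab⟩ := Nat.Prime.sq_add_sq (p := p) (by omega)
  have hsq : ∀ n : ℕ, n ^ 2 ≠ p := by
    intro n hn
    exact (Nat.Prime.prime hp).irreducible.not_isSquare ⟨n, by rw [← hn, sq]⟩
  have ha : 0 < a := by
    rcases Nat.eq_zero_or_pos a with h | h
    · subst h
      exact absurd (by simpa using hab) (hsq b)
    · exact h
  have hb : 0 < b := by
    rcases Nat.eq_zero_or_pos b with h | h
    · subst h
      exact absurd (by simpa using hab) (hsq a)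
    · exact h
  have hne : a ≠ b := by
    rintro rfl
    omega
  have hn1 : nm (⟨(a : ℤ), (b : ℤ)⟩ : Gi) = p := by
    have h := nm_cast (⟨(a : ℤ), (b : ℤ)⟩ : Gi)
    have h2 : ((nm (⟨(a : ℤ), (b : ℤ)⟩ : Gi) : ℕ) : ℤ) = ((p : ℕ) : ℤ) := by
      rw [h, ← hab]
      push_cast
      ring
    exact_mod_cast h2
  have hn2 : nm (⟨(b : ℤ), (a : ℤ)⟩ : Gi) = p := by
    have h := nm_cast (⟨(b : ℤ), (a : ℤ)⟩ : Gi)
    have h2 : ((nm (⟨(b : ℤ), (a : ℤ)⟩ : Gi) : ℕ) : ℤ) = ((p : ℕ) : ℤ) := by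
      rw [h, ← hab]
      push_cast
      ring
    exact_mod_cast h2
  have hd : (⟨(a : ℤ), (b : ℤ)⟩ : Gi) ≠ ⟨(b : ℤ), (a : ℤ)⟩ := by
    intro h
    have := congrArg Zsqrtd.re h
    simp only at this
    exact hne (by exact_mod_cast this)
  rw [← Finset.card_pair hd]
  refine Finset.card_le_card ?_
  intro z hz
  rw [mem_insert, mem_singleton] at hz
  rw [mem_filter, X.VPLM.mem_PI']
  rcases hz with rfl | rfl
  · refine ⟨⟨by rw [hn1]; exact hw, prime_of_nm_prime (by rw [hn1]; exact hp), ?_, ?_⟩, hn1⟩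
    · show (0 : ℤ) < (a : ℤ)
      exact_mod_cast ha
    · show (0 : ℤ) ≤ (b : ℤ)
      exact Int.natCast_nonneg b
  · refine ⟨⟨by rw [hn2]; exact hw, prime_of_nm_prime (by rw [hn2]; exact hp), ?_, ?_⟩, hn2⟩
    · show (0 : ℤ) < (b : ℤ)
      exact_mod_cast hb
    · show (0 : ℤ) ≤ (a : ℤ)
      exact Int.natCast_nonneg a

lemma fac {w : ℝ} {π : Gi} (h : π ∈ PI w) : 0 < 1 - 1 / (nm π : ℝ) ∧ 1 - 1 / (nm π : ℝ) ≤ 1 := by
  have h2 := X.VPLM.two_leR (X.VPLM.mem_PI'.1 h).2.1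
  have h3 : 1 / (nm π : ℝ) ≤ 1 / 2 := one_div_le_one_div_of_le (by norm_num) h2
  have h4 : 0 < 1 / (nm π : ℝ) := by positivity
  constructor <;> linarith

lemma VP_pos (w : ℝ) : 0 < VP w := by
  unfold VP
  exact prod_pos (fun π h => (fac h).1)

lemma VP_le_one (w : ℝ) : VP w ≤ 1 := by
  unfold VP
  exact prod_le_one (fun π h => (fac h).1.le) (fun π h => (fac h).2)

lemma VP_le {w : ℝ} (hw : 0 ≤ w) : VP w ≤ ∏ p ∈ P1 w, (1 - 1 / (p : ℝ)) ^ 2 := by
  classical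
  have h1 : VP w ≤ ∏ π ∈ (PI w).filter (fun π => nm π ∈ P1 w), (1 - 1 / (nm π : ℝ)) := by
    unfold VP
    exact prod_sub (filter_subset _ _) (fun π h => (fac h).1.le) (fun π h => (fac h).2)
  refine h1.trans ?_
  rw [← Finset.prod_fiberwise_of_maps_to (t := P1 w) (g := nm)
    (fun π h => (mem_filter.1 h).2)]
  refine prod_le_prod (fun p _ => prod_nonneg (fun π h => (fac (mem_filter.1 (mem_filter.1 h).1).1).1.le)) ?_
  intro p hp
  have hp' := (mem_P1 hw).1 hp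
  have h2 : ((PI w).filter (fun π => nm π ∈ P1 w)).filter (fun π => nm π = p) =
      (PI w).filter (fun π => nm π = p) := by
    ext π
    simp only [mem_filter]
    constructor
    · rintro ⟨⟨h1, -⟩, h3⟩
      exact ⟨h1, h3⟩
    · rintro ⟨h1, h3⟩
      exact ⟨⟨h1, by rw [h3]; exact hp⟩, h3⟩
  rw [h2]
  have h3 : ∏ π ∈ (PI w).filter (fun π => nm π = p), (1 - 1 / (nm π : ℝ)) =
      (1 - 1 / (p : ℝ)) ^ ((PI w).filter (fun π => nm π = p)).card := by
    rw [← Finset.prod_const]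
    refine prod_congr rfl (fun π h => ?_)
    rw [(mem_filter.1 h).2]
  rw [h3]
  have h5 : (5 : ℝ) ≤ p := by exact_mod_cast five_le hp'.2.1 hp'.2.2
  have h6 : 1 / (p : ℝ) ≤ 1 / 5 := one_div_le_one_div_of_le (by norm_num) h5
  have h7 : 0 < 1 / (p : ℝ) := by positivity
  exact pow_le_pow_of_le_one (by linarith) (by linarith) (two_card hp'.2.1 hp'.2.2 hp'.1)

/-! ## the densities -/

lemma gb_dvd {b p : ℕ} (hp : p.Prime) (hb : p ∣ b) : gb (b : ℤ) p ≤ 1 / (p : ℝ) := by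
  unfold gb
  refine div_le_div_of_nonneg_right ?_ (by positivity)
  have h : ((range p).filter (fun n : ℕ => p ∣ nm (pt n (b : ℤ)))).card ≤ 1 := by
    rw [Finset.card_le_one]
    have key : ∀ n ∈ (range p).filter (fun n : ℕ => p ∣ nm (pt n (b : ℤ))), n = 0 := by
      intro n hn
      rw [mem_filter, mem_range, XL.GBBM.dvd_pt] at hn
      have h1 : (p : ℤ) ∣ (b : ℤ) ^ 2 := dvd_pow (by exact_mod_cast hb) (by norm_num)
      have h2 : (p : ℤ) ∣ (n : ℤ) ^ 2 := (Int.dvd_add_left h1).1 hn.2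
      have h3 : p ∣ n ^ 2 := by exact_mod_cast h2
      have h4 : p ∣ n := hp.dvd_of_dvd_pow h3
      rcases Nat.eq_zero_or_pos n with h5 | h5
      · exact h5
      · exact absurd (Nat.le_of_dvd h5 h4) (by omega)
    intro n hn m hm
    rw [key n hn, key m hm]
  exact_mod_cast h

lemma gb_three {b p : ℕ} (hp : p.Prime) (h3 : p % 4 = 3) (hb : ¬ p ∣ b) : gb (b : ℤ) p = 0 := by
  unfold gb
  have h : (range p).filter (fun n : ℕ => p ∣ nm (pt n (b : ℤ))) = ∅ := by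
    rw [Finset.filter_eq_empty_iff]
    intro n _ hn
    rw [XL.GBBM.dvd_pt] at hn
    haveI : Fact p.Prime := ⟨hp⟩
    have h1 : (((n : ℤ) ^ 2 + (b : ℤ) ^ 2 : ℤ) : ZMod p) = 0 := (ZMod.intCast_zmod_eq_zero_iff_dvd _ _).2 hn
    push_cast at h1
    have hy : (b : ZMod p) ≠ 0 := by
      intro h
      exact hb ((ZMod.natCast_eq_zero_iff _ _).1 h)
    have h2 : (n : ZMod p) ^ 2 = - (b : ZMod p) ^ 2 := by
      linear_combination h1
    exact ZMod.mod_four_ne_three_of_sq_eq_neg_sq' hy h2 h3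
  rw [h]
  simp

/-- the telescoping product -/
lemma tel (M : ℕ) (hM : 4 ≤ M) :
    ∏ m ∈ Ioc 4 M, (1 - 1 / ((m : ℝ) - 1) ^ 2) = 3 / 4 * ((M : ℝ) / ((M : ℝ) - 1)) := by
  induction M, hM using Nat.le_induction with
  | base => norm_num
  | succ M hM ih =>
    rw [Finset.prod_Ioc_succ_top hM, ih]
    have h1 : (4 : ℝ) ≤ M := by exact_mod_cast hM
    have h2 : (M : ℝ) ≠ 0 := by linarith
    have h3 : (M : ℝ) - 1 ≠ 0 := by linarith
    push_cast
    have h4 : (M : ℝ) + 1 - 1 = M := by ring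
    rw [h4]
    field_simp
    ring

lemma tel_le (T : Finset ℕ) (hT : ∀ p ∈ T, 5 ≤ p) :
    3 / 4 ≤ ∏ p ∈ T, (1 - 1 / ((p : ℝ) - 1) ^ 2) := by
  set M : ℕ := T.sup id + 4 with hM
  have h1 : T ⊆ Ioc 4 M := by
    intro p hp
    rw [mem_Ioc]
    have h2 : p ≤ T.sup id := Finset.le_sup (f := id) hp
    have := hT p hp
    omega
  have hf : ∀ m ∈ Ioc 4 M, 0 ≤ 1 - 1 / ((m : ℝ) - 1) ^ 2 ∧ 1 - 1 / ((m : ℝ) - 1) ^ 2 ≤ 1 := by
    intro m hm
    rw [mem_Ioc] at hm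
    have h2 : (5 : ℝ) ≤ m := by exact_mod_cast hm.1
    have h3 : (1 : ℝ) ≤ ((m : ℝ) - 1) ^ 2 := by nlinarith
    have h4 : 1 / ((m : ℝ) - 1) ^ 2 ≤ 1 := by
      rw [div_le_one (by linarith)]
      exact h3
    have h5 : 0 ≤ 1 / ((m : ℝ) - 1) ^ 2 := by positivity
    constructor <;> linarith
  refine le_trans ?_ (prod_sub h1 (fun m hm => (hf m hm).1) (fun m hm => (hf m hm).2))
  rw [tel M (by omega)]
  have h2 : (4 : ℝ) ≤ M := by exact_mod_cast (by omega : 4 ≤ M)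
  have h3 : 1 ≤ (M : ℝ) / ((M : ℝ) - 1) := by
    rw [le_div_iff₀ (by linarith)]
    linarith
  linarith

/-- the large primes dividing `b` -/
lemma large {b : ℕ} {w : ℝ} (hb : 1 ≤ b) (hw : 3 ≤ w) (hbw : Real.log b ≤ w) :
    ∏ p ∈ (b.primeFactors.filter (fun p => p % 4 = 1)).filter (fun p : ℕ => ¬ (p : ℝ) ≤ w),
      ((p : ℝ) / ((p : ℝ) - 1)) ≤ Real.exp 2 := by
  set T := (b.primeFactors.filter (fun p => p % 4 = 1)).filter (fun p : ℕ => ¬ (p : ℝ) ≤ w) with hT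
  have hTm : ∀ p ∈ T, p ∈ b.primeFactors ∧ w < (p : ℝ) := by
    intro p hp
    rw [hT, mem_filter, mem_filter] at hp
    exact ⟨hp.1.1, not_le.1 hp.2⟩
  have hb0 : (0 : ℝ) < b := by exact_mod_cast hb
  have h1 : w ^ T.card ≤ (b : ℝ) := by
    calc w ^ T.card = ∏ _p ∈ T, w := (Finset.prod_const _).symm
      _ ≤ ∏ p ∈ T, (p : ℝ) := prod_le_prod (fun _ _ => by linarith) (fun p hp => (hTm p hp).2.le)
      _ = ((∏ p ∈ T, p : ℕ) : ℝ) := by push_cast; rfl
      _ ≤ (b : ℝ) := by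
          have h2 : ∏ p ∈ T, p ∣ b :=
            (Finset.prod_dvd_prod_of_subset T b.primeFactors (fun p => p)
              (fun p hp => (hTm p hp).1)).trans (Nat.prod_primeFactors_dvd b)
          exact_mod_cast Nat.le_of_dvd (by omega) h2
  have hl3 : 1 ≤ Real.log w := by
    rw [Real.le_log_iff_exp_le (by linarith)]
    have := Real.exp_one_lt_d9
    linarith
  have h2 : (T.card : ℝ) ≤ w := by
    have h3 := Real.log_le_log (by positivity) h1
    rw [Real.log_pow] at h3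
    have h4 : (T.card : ℝ) * 1 ≤ T.card * Real.log w := mul_le_mul_of_nonneg_left hl3 (by positivity)
    linarith
  calc ∏ p ∈ T, ((p : ℝ) / ((p : ℝ) - 1)) ≤ ∏ _p ∈ T, Real.exp (2 / w) := by
        refine prod_le_prod (fun p hp => ?_) (fun p hp => ?_)
        · have := (hTm p hp).2
          exact div_nonneg (by positivity) (by linarith)
        · have h3 := (hTm p hp).2
          have h4 : (0 : ℝ) < (p : ℝ) - 1 := by linarith
          have h5 : (p : ℝ) / ((p : ℝ) - 1) = 1 / ((p : ℝ) - 1) + 1 := by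
            field_simp
            ring
          have h6 : 1 / ((p : ℝ) - 1) ≤ 2 / w := by
            rw [div_le_div_iff₀ h4 (by linarith)]
            linarith
          rw [h5]
          have h7 := Real.add_one_le_exp (2 / w)
          linarith
    _ = Real.exp (T.card * (2 / w)) := by
        rw [Finset.prod_const, Real.exp_nat_mul]
    _ ≤ Real.exp 2 := by
        refine Real.exp_le_exp.2 ?_
        rw [mul_div_assoc', div_le_iff₀ (by linarith)]
        linarith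

/-- the ratio at one prime `p ≡ 1 mod 4` -/
lemma ratio1 {b p : ℕ} (hp : p.Prime) (h1 : p % 4 = 1) (hb : p ∣ b) :
    (p : ℝ) / ((p : ℝ) - 1) ≤ (1 - gb (b : ℤ) p) / (1 - 1 / (p : ℝ)) ^ 2 := by
  have h5 : (5 : ℝ) ≤ p := by exact_mod_cast five_le hp h1
  have h2 := gb_dvd hp hb
  have h3 : (0 : ℝ) < 1 - 1 / (p : ℝ) := by
    have : 1 / (p : ℝ) ≤ 1 / 5 := one_div_le_one_div_of_le (by norm_num) h5
    linarith
  rw [le_div_iff₀ (by positivity)]
  have h4 : (p : ℝ) / ((p : ℝ) - 1) * (1 - 1 / (p : ℝ)) ^ 2 = 1 - 1 / (p : ℝ) := by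
    have h6 : (p : ℝ) ≠ 0 := by linarith
    have h7 : (p : ℝ) - 1 ≠ 0 := by linarith
    field_simp
  rw [h4]
  linarith

lemma ratio2 {b p : ℕ} (hp : p.Prime) (h1 : p % 4 = 1) :
    1 - 1 / ((p : ℝ) - 1) ^ 2 ≤ (1 - gb (b : ℤ) p) / (1 - 1 / (p : ℝ)) ^ 2 := by
  have h5 : (5 : ℝ) ≤ p := by exact_mod_cast five_le hp h1
  have h2 := (XL.GBBM.gb_bound (b : ℤ) p hp).2.1
  have h3 : (0 : ℝ) < 1 - 1 / (p : ℝ) := by
    have : 1 / (p : ℝ) ≤ 1 / 5 := one_div_le_one_div_of_le (by norm_num) h5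
    linarith
  rw [le_div_iff₀ (by positivity)]
  have h4 : (1 - 1 / ((p : ℝ) - 1) ^ 2) * (1 - 1 / (p : ℝ)) ^ 2 = 1 - 2 / (p : ℝ) := by
    have h6 : (p : ℝ) ≠ 0 := by linarith
    have h7 : (p : ℝ) - 1 ≠ 0 := by linarith
    field_simp
    ring
  rw [h4]
  linarith

/-- the part of the primes `≢ 1 mod 4` -/
lemma rest {b : ℕ} {w : ℝ} (hb : 1 ≤ b) :
    1 / 2 * ∏ p ∈ b.primeFactors.filter (fun p => p % 4 = 3), (((p : ℝ) - 1) / (p : ℝ)) ≤
      ∏ p ∈ (PS w).filter (fun p => ¬ p % 4 = 1), (1 - gb (b : ℤ) p) := by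
  classical
  have hg : ∀ p ∈ (PS w).filter (fun p => ¬ p % 4 = 1), p.Prime ∧ (p = 2 ∨ p % 4 = 3) := by
    intro p hp
    unfold PS at hp
    rw [mem_filter, mem_filter] at hp
    have h1 := hp.1.2.1
    refine ⟨h1, ?_⟩
    rcases h1.eq_two_or_odd with h | h
    · exact Or.inl h
    · right
      have := hp.2
      omega
  have hF : ∀ p ∈ b.primeFactors.filter (fun p => p % 4 = 3),
      0 ≤ ((p : ℝ) - 1) / (p : ℝ) ∧ ((p : ℝ) - 1) / (p : ℝ) ≤ 1 := by
    intro p hp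
    rw [mem_filter, Nat.mem_primeFactors] at hp
    have h2 : (2 : ℝ) ≤ p := by exact_mod_cast hp.1.1.two_le
    refine ⟨div_nonneg (by linarith) (by linarith), ?_⟩
    rw [div_le_one (by linarith)]
    linarith
  rw [← prod_filter_mul_prod_filter_not ((PS w).filter (fun p => ¬ p % 4 = 1)) (fun p => p = 2)]
  have e1 : 1 / 2 ≤ ∏ p ∈ ((PS w).filter (fun p => ¬ p % 4 = 1)).filter (fun p => p = 2),
      (1 - gb (b : ℤ) p) := by
    have h1 : ((PS w).filter (fun p => ¬ p % 4 = 1)).filter (fun p => p = 2) ⊆ {2} := by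
      intro p hp
      rw [mem_singleton]
      exact (mem_filter.1 hp).2
    have h2 : gb (b : ℤ) 2 ≤ 1 / 2 := by
      unfold gb
      have h3 : (((range 2).filter (fun n : ℕ => 2 ∣ nm (pt n (b : ℤ)))).card : ℝ) ≤ 1 := by
        exact_mod_cast XL.GBBM.card_two
      push_cast
      linarith
    have h3 : 0 ≤ gb (b : ℤ) 2 := (XL.GBBM.gb_bound (b : ℤ) 2 Nat.prime_two).1
    have h4 := prod_sub h1 (f := fun p => 1 - gb (b : ℤ) p) (by
      intro p hp
      rw [mem_singleton] at hp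
      rw [hp]
      linarith) (by
      intro p hp
      rw [mem_singleton] at hp
      rw [hp]
      linarith)
    rw [prod_singleton] at h4
    linarith
  have e2 : ∏ p ∈ b.primeFactors.filter (fun p => p % 4 = 3), (((p : ℝ) - 1) / (p : ℝ)) ≤
      ∏ p ∈ ((PS w).filter (fun p => ¬ p % 4 = 1)).filter (fun p => ¬ p = 2),
      (1 - gb (b : ℤ) p) := by
    rw [← prod_filter_mul_prod_filter_not
      (((PS w).filter (fun p => ¬ p % 4 = 1)).filter (fun p => ¬ p = 2)) (fun p => p ∣ b)]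
    have h1 : ∏ p ∈ (((PS w).filter (fun p => ¬ p % 4 = 1)).filter (fun p => ¬ p = 2)).filter
        (fun p => ¬ p ∣ b), (1 - gb (b : ℤ) p) = 1 := by
      refine prod_eq_one (fun p hp => ?_)
      rw [mem_filter, mem_filter] at hp
      have h2 := hg p hp.1.1
      have h3 : p % 4 = 3 := by
        rcases h2.2 with h | h
        · exact absurd h hp.1.2
        · exact h
      rw [gb_three h2.1 h3 hp.2, sub_zero]
    rw [h1, mul_one]
    have h2 : (((PS w).filter (fun p => ¬ p % 4 = 1)).filter (fun p => ¬ p = 2)).filter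
        (fun p => p ∣ b) ⊆ b.primeFactors.filter (fun p => p % 4 = 3) := by
      intro p hp
      rw [mem_filter, mem_filter] at hp
      have h2 := hg p hp.1.1
      rw [mem_filter, Nat.mem_primeFactors]
      refine ⟨⟨h2.1, hp.2, by omega⟩, ?_⟩
      rcases h2.2 with h | h
      · exact absurd h hp.1.2
      · exact h
    refine (prod_sub h2 (fun p hp => (hF p hp).1) (fun p hp => (hF p hp).2)).trans ?_
    refine prod_le_prod (fun p hp => (hF p (h2 hp)).1) (fun p hp => ?_)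
    have h3 := h2 hp
    rw [mem_filter, Nat.mem_primeFactors] at h3
    have h4 := gb_dvd h3.1.1 h3.1.2.1
    have h5 : (2 : ℝ) ≤ p := by exact_mod_cast h3.1.1.two_le
    have h6 : ((p : ℝ) - 1) / (p : ℝ) = 1 - 1 / (p : ℝ) := by
      have : (p : ℝ) ≠ 0 := by linarith
      field_simp
    rw [h6]
    linarith
  have h0 : 0 ≤ ∏ p ∈ b.primeFactors.filter (fun p => p % 4 = 3), (((p : ℝ) - 1) / (p : ℝ)) :=
    prod_nonneg (fun p hp => (hF p hp).1)
  exact mul_le_mul e1 e2 h0 (by linarith)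

/-- the part of the primes `≡ 1 mod 4` -/
lemma one {b : ℕ} {w : ℝ} (hb : 1 ≤ b) (hw : 3 ≤ w) (hbw : Real.log b ≤ w) :
    3 / 4 * Real.exp (-2) * ∏ p ∈ b.primeFactors.filter (fun p => p % 4 = 1),
      ((p : ℝ) / ((p : ℝ) - 1)) ≤
      ∏ p ∈ P1 w, (1 - gb (b : ℤ) p) / (1 - 1 / (p : ℝ)) ^ 2 := by
  classical
  have hw0 : 0 ≤ w := by linarith
  rw [← prod_filter_mul_prod_filter_not (P1 w) (fun p => p ∣ b)]
  have e1 : ∏ p ∈ (b.primeFactors.filter (fun p => p % 4 = 1)).filter (fun p : ℕ => (p : ℝ) ≤ w),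
      ((p : ℝ) / ((p : ℝ) - 1)) ≤
      ∏ p ∈ (P1 w).filter (fun p => p ∣ b), (1 - gb (b : ℤ) p) / (1 - 1 / (p : ℝ)) ^ 2 := by
    have h1 : (b.primeFactors.filter (fun p => p % 4 = 1)).filter (fun p : ℕ => (p : ℝ) ≤ w) =
        (P1 w).filter (fun p => p ∣ b) := by
      ext p
      rw [mem_filter, mem_filter, mem_filter, mem_P1 hw0, Nat.mem_primeFactors]
      constructor
      · rintro ⟨⟨⟨h1, h2, h3⟩, h4⟩, h5⟩
        exact ⟨⟨h5, h1, h4⟩, h2⟩
      · rintro ⟨⟨h5, h1, h4⟩, h2⟩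
        exact ⟨⟨⟨h1, h2, by omega⟩, h4⟩, h5⟩
    rw [h1]
    refine prod_le_prod (fun p hp => ?_) (fun p hp => ?_)
    · rw [mem_filter, mem_P1 hw0] at hp
      have h5 : (5 : ℝ) ≤ p := by exact_mod_cast five_le hp.1.2.1 hp.1.2.2
      exact div_nonneg (by linarith) (by linarith)
    · rw [mem_filter, mem_P1 hw0] at hp
      exact ratio1 hp.1.2.1 hp.1.2.2 hp.2
  have e2 : 3 / 4 ≤
      ∏ p ∈ (P1 w).filter (fun p => ¬ p ∣ b), (1 - gb (b : ℤ) p) / (1 - 1 / (p : ℝ)) ^ 2 := by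
    refine (tel_le ((P1 w).filter (fun p => ¬ p ∣ b)) (fun p hp => ?_)).trans ?_
    · rw [mem_filter, mem_P1 hw0] at hp
      exact five_le hp.1.2.1 hp.1.2.2
    · refine prod_le_prod (fun p hp => ?_) (fun p hp => ?_)
      · rw [mem_filter, mem_P1 hw0] at hp
        have h5 : (5 : ℝ) ≤ p := by exact_mod_cast five_le hp.1.2.1 hp.1.2.2
        have h3 : (1 : ℝ) ≤ ((p : ℝ) - 1) ^ 2 := by nlinarith
        have h4 : 1 / ((p : ℝ) - 1) ^ 2 ≤ 1 := by
          rw [div_le_one (by linarith)]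
          exact h3
        linarith
      · rw [mem_filter, mem_P1 hw0] at hp
        exact ratio2 hp.1.2.1 hp.1.2.2
  have e3 := large hb hw hbw
  have e4 : 0 ≤ ∏ p ∈ (b.primeFactors.filter (fun p => p % 4 = 1)).filter
      (fun p : ℕ => (p : ℝ) ≤ w), ((p : ℝ) / ((p : ℝ) - 1)) := by
    refine prod_nonneg (fun p hp => ?_)
    rw [mem_filter, mem_filter, Nat.mem_primeFactors] at hp
    have h5 : (2 : ℝ) ≤ p := by exact_mod_cast hp.1.1.1.two_le
    exact div_nonneg (by linarith) (by linarith)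
  rw [← prod_filter_mul_prod_filter_not (b.primeFactors.filter (fun p => p % 4 = 1))
    (fun p : ℕ => (p : ℝ) ≤ w)]
  have h6 : Real.exp (-2) * Real.exp 2 = 1 := by
    rw [← Real.exp_add]
    norm_num
  have h7 := Real.exp_pos (-2)
  set X := ∏ p ∈ (b.primeFactors.filter (fun p => p % 4 = 1)).filter
      (fun p : ℕ => (p : ℝ) ≤ w), ((p : ℝ) / ((p : ℝ) - 1)) with hX
  set Y := ∏ p ∈ (b.primeFactors.filter (fun p => p % 4 = 1)).filter
      (fun p : ℕ => ¬ (p : ℝ) ≤ w), ((p : ℝ) / ((p : ℝ) - 1)) with hY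
  calc 3 / 4 * Real.exp (-2) * (X * Y) ≤ 3 / 4 * Real.exp (-2) * (X * Real.exp 2) := by
        refine mul_le_mul_of_nonneg_left (mul_le_mul_of_nonneg_left e3 e4) (by positivity)
    _ = X * (3 / 4) * (Real.exp (-2) * Real.exp 2) := by ring
    _ = X * (3 / 4) := by rw [h6, mul_one]
    _ ≤ _ := mul_le_mul e1 e2 (by norm_num) (e4.trans e1)

end SSBM

open SSBM in
theorem specSSB : SpecSSB := by
  classical
  refine ⟨3 / 8 * Real.exp (-2), by positivity, fun b w hb hw hbw => ⟨VP_pos w, VP_le_one w, ?_⟩⟩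
  have hw0 : 0 ≤ w := by linarith
  rw [le_div_iff₀ (VP_pos w)]
  have h1 := VP_le hw0
  have h2 : VS (b : ℤ) (PS w) = (∏ p ∈ P1 w, (1 - gb (b : ℤ) p)) *
      ∏ p ∈ (PS w).filter (fun p => ¬ p % 4 = 1), (1 - gb (b : ℤ) p) := by
    unfold VS
    rw [← prod_filter_mul_prod_filter_not (PS w) (fun p => p % 4 = 1)]
    have h3 : (PS w).filter (fun p => p % 4 = 1) = P1 w := by
      ext p
      unfold PS P1
      rw [mem_filter, mem_filter, mem_filter]
      constructor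
      · rintro ⟨⟨h1, h2, h3⟩, h4⟩
        exact ⟨h1, h2, h4⟩
      · rintro ⟨h1, h2, h4⟩
        exact ⟨⟨h1, h2, Or.inl (by omega)⟩, h4⟩
    rw [h3]
  have h3 : ∏ p ∈ P1 w, (1 - gb (b : ℤ) p) =
      (∏ p ∈ P1 w, (1 - gb (b : ℤ) p) / (1 - 1 / (p : ℝ)) ^ 2) *
        ∏ p ∈ P1 w, (1 - 1 / (p : ℝ)) ^ 2 := by
    rw [← prod_mul_distrib]
    refine prod_congr rfl (fun p hp => ?_)
    have hp' := (mem_P1 hw0).1 hp
    have h5 : (5 : ℝ) ≤ p := by exact_mod_cast five_le hp'.2.1 hp'.2.2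
    have h6 : 1 / (p : ℝ) ≤ 1 / 5 := one_div_le_one_div_of_le (by norm_num) h5
    rw [div_mul_cancel₀]
    have : 0 < 1 - 1 / (p : ℝ) := by linarith
    positivity
  have h4 := one hb hw hbw
  have h5 := rest (w := w) hb
  have hQ : 0 ≤ ∏ p ∈ b.primeFactors.filter (fun p => p % 4 = 3), (((p : ℝ) - 1) / (p : ℝ)) := by
    refine prod_nonneg (fun p hp => ?_)
    rw [mem_filter, Nat.mem_primeFactors] at hp
    have h2 : (2 : ℝ) ≤ p := by exact_mod_cast hp.1.1.two_le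
    exact div_nonneg (by linarith) (by linarith)
  have hR : 0 ≤ ∏ p ∈ b.primeFactors.filter (fun p => p % 4 = 1), ((p : ℝ) / ((p : ℝ) - 1)) := by
    refine prod_nonneg (fun p hp => ?_)
    rw [mem_filter, Nat.mem_primeFactors] at hp
    have h2 : (2 : ℝ) ≤ p := by exact_mod_cast hp.1.1.two_le
    exact div_nonneg (by linarith) (by linarith)
  have hE := Real.exp_pos (-2)
  rw [h2, h3]
  unfold gB
  set R := ∏ p ∈ b.primeFactors.filter (fun p => p % 4 = 1), ((p : ℝ) / ((p : ℝ) - 1)) with hRd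
  set Q := ∏ p ∈ b.primeFactors.filter (fun p => p % 4 = 3), (((p : ℝ) - 1) / (p : ℝ)) with hQd
  set A := ∏ p ∈ P1 w, (1 - gb (b : ℤ) p) / (1 - 1 / (p : ℝ)) ^ 2 with hA
  set D := ∏ p ∈ P1 w, (1 - 1 / (p : ℝ)) ^ 2 with hD
  set F := ∏ p ∈ (PS w).filter (fun p => ¬ p % 4 = 1), (1 - gb (b : ℤ) p) with hF
  have hA0 : 0 ≤ A := le_trans (by positivity) h4
  have hD0 : 0 ≤ D := (VP_pos w).le.trans h1
  calc 3 / 8 * Real.exp (-2) * (R * Q) * VP w
      = (3 / 4 * Real.exp (-2) * R) * (1 / 2 * Q) * VP w := by ring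
    _ ≤ (A * F) * D := by
        refine mul_le_mul (mul_le_mul h4 h5 (by positivity) hA0) h1 (VP_pos w).le ?_
        exact mul_nonneg hA0 (le_trans (by positivity) h5)
    _ = A * D * F := by ring

end Pool.Agent.Lib.MP391708.XP
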