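import Pool.Agent.Lib.MP_391708_nt.XP.SpecO

/-!
# THEOREM X+ (MP_391708), part O, module BXC: there are many boxes (helper45)
-/

set_option autoImplicit false

namespace Pool.Agent.Lib.MP391708.XP

open Finset Filter Topology

namespace BXCM

/-- the powers of `2` in `[lo, hi]` -/
theorem dy (lo hi : ℝ) (h1 : 1 ≤ lo) (h2 : 1 ≤ hi) : ∃ D : Finset ℕ,
    (∀ m ∈ D, lo ≤ 2 ^ m ∧ (2 : ℝ) ^ m ≤ hi) ∧
    (Real.log hi - Real.log lo) / Real.log 2 - 1 ≤ (D.card : ℝ) ∧
    (D.card : ℝ) ≤ Real.log hi / Real.log 2 + 1 := by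
  have hlog2 : 0 < Real.log 2 := Real.log_pos (by norm_num)
  have hn : 0 ≤ Real.log hi / Real.log 2 := div_nonneg (Real.log_nonneg h2) hlog2.le
  have hl : 0 ≤ Real.log lo / Real.log 2 := div_nonneg (Real.log_nonneg h1) hlog2.le
  refine ⟨Finset.Icc ⌈Real.log lo / Real.log 2⌉₊ ⌊Real.log hi / Real.log 2⌋₊, ?_, ?_, ?_⟩
  · intro m hm
    rw [Finset.mem_Icc] at hm
    have h3 : Real.log lo / Real.log 2 ≤ m := (Nat.le_ceil _).trans (by exact_mod_cast hm.1)
    have h4 : (m : ℝ) ≤ Real.log hi / Real.log 2 :=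
      le_trans (by exact_mod_cast hm.2) (Nat.floor_le hn)
    rw [div_le_iff₀ hlog2] at h3
    rw [le_div_iff₀ hlog2] at h4
    have e : Real.log ((2 : ℝ) ^ m) = m * Real.log 2 := by rw [Real.log_pow]
    constructor
    · rw [← Real.log_le_log_iff (by linarith) (by positivity), e]
      exact h3
    · rw [← Real.log_le_log_iff (by positivity) (by linarith), e]
      exact h4
  · rw [Nat.card_Icc]
    have a1 : (⌈Real.log lo / Real.log 2⌉₊ : ℝ) < Real.log lo / Real.log 2 + 1 :=
      Nat.ceil_lt_add_one hl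
    have a2 : Real.log hi / Real.log 2 < (⌊Real.log hi / Real.log 2⌋₊ : ℝ) + 1 :=
      Nat.lt_floor_add_one _
    have a3 : ((⌊Real.log hi / Real.log 2⌋₊ + 1 : ℕ) : ℝ) ≤
        ((⌊Real.log hi / Real.log 2⌋₊ + 1 - ⌈Real.log lo / Real.log 2⌉₊ : ℕ) : ℝ) +
          (⌈Real.log lo / Real.log 2⌉₊ : ℝ) := by
      exact_mod_cast (le_tsub_add :
        (⌊Real.log hi / Real.log 2⌋₊ + 1 : ℕ) ≤
          (⌊Real.log hi / Real.log 2⌋₊ + 1 - ⌈Real.log lo / Real.log 2⌉₊) +
            ⌈Real.log lo / Real.log 2⌉₊)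
    rw [Nat.cast_add, Nat.cast_one] at a3
    rw [sub_div]
    linarith
  · rw [Nat.card_Icc]
    have a2 : (⌊Real.log hi / Real.log 2⌋₊ : ℝ) ≤ Real.log hi / Real.log 2 := Nat.floor_le hn
    have a3 : ((⌊Real.log hi / Real.log 2⌋₊ + 1 - ⌈Real.log lo / Real.log 2⌉₊ : ℕ) : ℝ) ≤
        ((⌊Real.log hi / Real.log 2⌋₊ + 1 : ℕ) : ℝ) := by
      exact_mod_cast Nat.sub_le _ _
    rw [Nat.cast_add, Nat.cast_one] at a3
    linarith

theorem log2_inv : (144 / 100 : ℝ) ≤ 1 / Real.log 2 ∧ 1 / Real.log 2 ≤ (145 / 100 : ℝ) := by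
  have h1 := Real.log_two_gt_d9
  have h2 := Real.log_two_lt_d9
  have h3 : 0 < Real.log 2 := by linarith
  constructor
  · rw [le_div_iff₀ h3]
    linarith
  · rw [div_le_iff₀ h3]
    linarith

theorem dv (x : ℝ) : x / Real.log 2 = x * (1 / Real.log 2) := by rw [mul_one_div]

end BXCM

/-- **BXC**: there are many boxes. -/
theorem specBXC : SpecBXC := by
  intro δ cP cT cB hδ hδ1 hcP hcT hcB
  obtain ⟨g1, g2⟩ := BXCM.log2_inv
  have hlog2 : 0 < Real.log 2 := Real.log_pos (by norm_num)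
  set D : ℝ := 4 * cP + cB + cT + 1 with hD
  have hD1 : 1 ≤ D := by linarith
  refine ⟨δ / 40, 8 * D / δ, by positivity, ?_⟩
  have ev1 : ∀ᶠ l : ℝ in atTop, 100 ≤ l := eventually_ge_atTop _
  have ev2 : ∀ᶠ l : ℝ in atTop, 3 ≤ Real.log l :=
    Real.tendsto_log_atTop.eventually (eventually_ge_atTop 3)
  have ev3 : ∀ᶠ l : ℝ in atTop, 3 * cP * Real.log l + 1 ≤ l := by
    have h1 : Tendsto (fun l : ℝ => Real.log l / l) atTop (𝓝 0) := by
      have := (isLittleO_log_rpow_atTop (r := 1) one_pos).tendsto_div_nhds_zero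
      simpa using this
    have h2 : ∀ᶠ l : ℝ in atTop, Real.log l / l < 1 / (6 * cP) :=
      h1.eventually_lt_const (by positivity)
    filter_upwards [h2, eventually_ge_atTop (2 : ℝ)] with l h3 h4
    rw [div_lt_div_iff₀ (by linarith) (by positivity)] at h3
    linarith
  have ev := Real.tendsto_log_atTop.eventually (ev1.and (ev2.and ev3))
  filter_upwards [ev, eventually_ge_atTop (2 : ℝ)] with N hN hN2 B hB1 hB2
  obtain ⟨n1, n2, n3⟩ := hN
  have hN0 : 0 < N := by linarith
  set l : ℝ := Real.log N with hl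
  set L : ℝ := Real.log l with hL
  have hl0 : 0 < l := by linarith
  have hl1 : 1 ≤ l := by linarith
  have hB0 : 0 < B := lt_of_lt_of_le (Real.rpow_pos_of_pos hl0 _) hB1
  -- the size of log B
  have b1 : 8 * D / δ * L ≤ Real.log B := by
    have := Real.log_le_log (Real.rpow_pos_of_pos hl0 _) hB1
    rwa [Real.log_rpow hl0] at this
  have b2 : Real.log B ≤ l := by
    have h1 : Real.log (B ^ 2) ≤ Real.log (2 * N) := Real.log_le_log (by positivity) hB2
    rw [Real.log_pow, Real.log_mul (by norm_num) (by linarith)] at h1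
    have h2 : Real.log 2 ≤ Real.log N := Real.log_le_log (by norm_num) hN2
    push_cast at h1
    linarith
  have b3 : 8 * (D * L) ≤ δ * Real.log B := by
    have h1 := mul_le_mul_of_nonneg_left b1 hδ.le
    have h2 : δ * (8 * D / δ * L) = 8 * (D * L) := by
      field_simp
    linarith
  have hDL : 3 ≤ D * L := by nlinarith
  have hLB : 0 < Real.log B := by nlinarith
  -- the upper bound of T
  set X : ℝ := min (N ^ δ) (B * l ^ (-(2 * cP + cB))) with hX
  have hX0 : 0 < X := lt_min (Real.rpow_pos_of_pos hN0 _)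
    (mul_pos hB0 (Real.rpow_pos_of_pos hl0 _))
  have x1 : 7 / 8 * (δ * Real.log B) ≤ Real.log X := by
    rcases min_choice (N ^ δ) (B * l ^ (-(2 * cP + cB))) with h | h
    · rw [hX, h, Real.log_rpow hN0]
      have := mul_le_mul_of_nonneg_left b2 hδ.le
      have h3 : 0 < δ * Real.log B := mul_pos hδ hLB
      linarith
    · rw [hX, h, Real.log_mul hB0.ne' (Real.rpow_pos_of_pos hl0 _).ne', Real.log_rpow hl0]
      have h3 : δ * Real.log B ≤ 1 * Real.log B := mul_le_mul_of_nonneg_right hδ1 hLB.le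
      have h4 : (2 * cP + cB) * L ≤ D * L := mul_le_mul_of_nonneg_right (by linarith) (by linarith)
      linarith
  have hX1 : 1 ≤ X := by
    have h1 : 0 ≤ Real.log X := by
      have : 0 < δ * Real.log B := mul_pos hδ hLB
      linarith
    by_contra h
    exact absurd (Real.log_neg hX0 (not_le.1 h)) (not_lt.2 h1)
  have x2 : X ≤ N ^ δ := min_le_left _ _
  have x3 : X ≤ B * l ^ (-(2 * cP + cB)) := min_le_right _ _
  have x4 : Real.log X ≤ δ * l := by
    have := Real.log_le_log hX0 x2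
    rwa [Real.log_rpow hN0] at this
  obtain ⟨SI, i1, i2, i3⟩ := BXCM.dy (l ^ (2 * cP + cT)) X
    (Real.one_le_rpow hl1 (by linarith)) hX1
  obtain ⟨SJ, j1, j2, j3⟩ := BXCM.dy (l ^ cP) (l ^ (2 * cP))
    (Real.one_le_rpow hl1 (by linarith)) (Real.one_le_rpow hl1 (by linarith))
  obtain ⟨SM, m1, m2, m3⟩ := BXCM.dy (N ^ (35 / 100 : ℝ)) (N ^ (45 / 100 : ℝ))
    (Real.one_le_rpow (by linarith) (by norm_num)) (Real.one_le_rpow (by linarith) (by norm_num))
  rw [Real.log_rpow hl0] at i2 j2 j3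
  rw [Real.log_rpow hl0] at j2
  rw [Real.log_rpow hN0] at m2 m3
  rw [Real.log_rpow hN0] at m2
  rw [← hl] at m2 m3
  rw [← hL] at i2 j2 j3
  -- the three numbers
  have c1 : δ / 2 * Real.log B ≤ (SI.card : ℝ) := by
    refine le_trans ?_ i2
    have h4 : (2 * cP + cT) * L ≤ D * L := mul_le_mul_of_nonneg_right (by linarith) (by linarith)
    have h5 : 3 / 4 * (δ * Real.log B) ≤ Real.log X - (2 * cP + cT) * L := by linarith
    have h6 : 0 ≤ Real.log X - (2 * cP + cT) * L := by
      have : 0 < δ * Real.log B := mul_pos hδ hLB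
      linarith
    have h7 : Real.log X - (2 * cP + cT) * L ≤ (Real.log X - (2 * cP + cT) * L) / Real.log 2 := by
      rw [BXCM.dv]
      nlinarith
    linarith
  have c2 : cP * L ≤ (SJ.card : ℝ) := by
    refine le_trans ?_ j2
    have h6 : 0 ≤ cP * L := by positivity
    have h7 : cP * L * (144 / 100) ≤ (2 * cP * L - cP * L) / Real.log 2 := by
      rw [BXCM.dv]
      have e : 2 * cP * L - cP * L = cP * L := by ring
      rw [e]
      exact mul_le_mul_of_nonneg_left g1 h6
    have h8 : 3 ≤ cP * L := by nlinarith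
    linarith
  have c3 : l / 10 ≤ (SM.card : ℝ) := by
    refine le_trans ?_ m2
    have h7 : l / 10 * (144 / 100) ≤ (45 / 100 * l - 35 / 100 * l) / Real.log 2 := by
      rw [BXCM.dv]
      have e : 45 / 100 * l - 35 / 100 * l = l / 10 := by ring
      rw [e]
      exact mul_le_mul_of_nonneg_left g1 (by positivity)
    linarith
  have d1 : (SI.card : ℝ) ≤ 2 * l := by
    refine i3.trans ?_
    have h7 : Real.log X / Real.log 2 ≤ 145 / 100 * l := by
      rw [BXCM.dv]
      have h8 : Real.log X ≤ l := x4.trans (by nlinarith)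
      calc Real.log X * (1 / Real.log 2) ≤ l * (1 / Real.log 2) :=
            mul_le_mul_of_nonneg_right h8 (by positivity)
        _ ≤ l * (145 / 100) := mul_le_mul_of_nonneg_left g2 hl0.le
        _ = _ := by ring
    linarith
  have d2 : (SJ.card : ℝ) ≤ l := by
    refine j3.trans ?_
    have h7 : 2 * cP * L / Real.log 2 ≤ 3 * cP * L := by
      rw [BXCM.dv]
      have h8 : 0 ≤ 2 * cP * L := by positivity
      calc 2 * cP * L * (1 / Real.log 2) ≤ 2 * cP * L * (145 / 100) :=
            mul_le_mul_of_nonneg_left g2 h8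
        _ ≤ _ := by nlinarith
    linarith
  have d3 : (SM.card : ℝ) ≤ l := by
    refine m3.trans ?_
    have h7 : 45 / 100 * l / Real.log 2 ≤ 7 / 10 * l := by
      rw [BXCM.dv]
      calc 45 / 100 * l * (1 / Real.log 2) ≤ 45 / 100 * l * (145 / 100) :=
            mul_le_mul_of_nonneg_left g2 (by positivity)
        _ ≤ _ := by nlinarith
    linarith
  refine ⟨SI ×ˢ (SJ ×ˢ SM), ?_, ?_, ?_⟩
  · rintro ⟨i, j, m⟩ hq
    rw [Finset.mem_product, Finset.mem_product] at hq
    obtain ⟨hi, hj, hm⟩ := hq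
    obtain ⟨i4, i5⟩ := i1 i hi
    obtain ⟨j4, j5⟩ := j1 j hj
    obtain ⟨m4, m5⟩ := m1 m hm
    refine ⟨j4, j5, ?_, i5.trans x2, m4, m5, ?_, hB2⟩
    · calc (2 : ℝ) ^ j * l ^ cT ≤ l ^ (2 * cP) * l ^ cT :=
            mul_le_mul_of_nonneg_right j5 (Real.rpow_nonneg hl0.le _)
        _ = l ^ (2 * cP + cT) := (Real.rpow_add hl0 _ _).symm
        _ ≤ 2 ^ i := i4
    · calc (2 : ℝ) ^ i * 2 ^ j * l ^ cB
          ≤ (B * l ^ (-(2 * cP + cB))) * l ^ (2 * cP) * l ^ cB := by
            refine mul_le_mul_of_nonneg_right ?_ (Real.rpow_nonneg hl0.le _)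
            exact mul_le_mul (i5.trans x3) j5 (by positivity) (by positivity)
        _ = B := by
            rw [mul_assoc, mul_assoc, ← Real.rpow_add hl0, ← Real.rpow_add hl0]
            have : -(2 * cP + cB) + (2 * cP + cB) = 0 := by ring
            rw [this, Real.rpow_zero, mul_one]
  · rw [Finset.card_product, Finset.card_product]
    push_cast
    calc (SI.card : ℝ) * (SJ.card * SM.card) ≤ 2 * l * (l * l) := by
          refine mul_le_mul d1 ?_ (by positivity) (by positivity)
          exact mul_le_mul d2 d3 (by positivity) (by positivity)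
      _ ≤ l ^ 4 := by
          have h1 : 0 ≤ l ^ 3 := by positivity
          nlinarith
  · have t0 : 0 < 2 * cP * L := by positivity
    have key : ∀ q ∈ SI ×ˢ (SJ ×ˢ SM), 1 / (2 * cP * L) ≤ 1 / Real.log ((2 : ℝ) ^ q.2.1) := by
      rintro ⟨i, j, m⟩ hq
      rw [Finset.mem_product, Finset.mem_product] at hq
      obtain ⟨j4, j5⟩ := j1 j hq.2.1
      have h1 : 0 < Real.log ((2 : ℝ) ^ j) := by
        have h2 := Real.log_le_log (Real.rpow_pos_of_pos hl0 _) j4
        rw [Real.log_rpow hl0] at h2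
        have h3 : 0 < cP * L := by positivity
        exact lt_of_lt_of_le h3 h2
      have h2 : Real.log ((2 : ℝ) ^ j) ≤ 2 * cP * L := by
        have h2 := Real.log_le_log (by positivity) j5
        rwa [Real.log_rpow hl0] at h2
      exact one_div_le_one_div_of_le h1 h2
    have h1 := Finset.card_nsmul_le_sum _ _ _ key
    rw [nsmul_eq_mul, Finset.card_product, Finset.card_product] at h1
    refine le_trans ?_ h1
    push_cast
    calc δ / 40 * (l * Real.log B)
        = δ / 2 * Real.log B * (cP * L * (l / 10)) * (1 / (2 * cP * L)) := by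
          field_simp
          ring
      _ ≤ (SI.card : ℝ) * (SJ.card * SM.card) * (1 / (2 * cP * L)) := by
          refine mul_le_mul_of_nonneg_right ?_ (by positivity)
          refine mul_le_mul c1 ?_ (by positivity) (by positivity)
          exact mul_le_mul c2 c3 (by positivity) (by positivity)

end Pool.Agent.Lib.MP391708.XP
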